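import Mathlib

set_option autoImplicit false

namespace Pool.Agent.Helper32.SixThree

open Finset

lemma chernoff {ι : Type*} [DecidableEq ι] (H : Finset ι) (w g : ι → ℝ) (hw : ∀ h ∈ H, 0 ≤ w h)
    (Z μ G : ℝ) (hZ : ∑ h ∈ H, w h = Z) (hμ : ∑ h ∈ H, w h * g h = Z * μ) (hG : 0 < G)
    (hg : ∀ h ∈ H, |g h - μ| ≤ G) (D : ℕ) (hD : 1 ≤ D) (A : ℝ) :
    ∑ v ∈ (Fintype.piFinset fun _ : Fin D => H).filter (fun v => A ≤ ∑ i, (g (v i) - μ)),
      ∏ i, w (v i) ≤ Z ^ D * Real.exp (1 - A / (G * √D)) := by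
  have hDpos : (0 : ℝ) < D := by exact_mod_cast hD
  have hsD : 0 < √(D : ℝ) := Real.sqrt_pos.2 hDpos
  have hsD1 : 1 ≤ √(D : ℝ) := by
    rw [Real.one_le_sqrt]
    exact_mod_cast hD
  have hZ0 : 0 ≤ Z := by rw [← hZ]; exact sum_nonneg hw
  set l : ℝ := 1 / (G * √D) with hl
  have hl0 : 0 < l := by positivity
  have hlG : l * G = 1 / √D := by
    rw [hl]; field_simp
  -- the bound for one coordinate
  have h1 : ∑ h ∈ H, w h * Real.exp (l * (g h - μ)) ≤ Z * Real.exp (1 / D) := by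
    have h2 : ∀ h ∈ H, w h * Real.exp (l * (g h - μ)) ≤
        w h * (1 + l * (g h - μ) + 1 / D) := by
      intro h hh
      apply mul_le_mul_of_nonneg_left _ (hw h hh)
      have h3 : |l * (g h - μ)| ≤ 1 / √D := by
        rw [abs_mul, abs_of_pos hl0, ← hlG]
        exact mul_le_mul_of_nonneg_left (hg h hh) hl0.le
      have h4 : |l * (g h - μ)| ≤ 1 := by
        refine le_trans h3 ?_
        rw [div_le_one hsD]
        exact hsD1
      have h5 := (abs_le.1 (Real.abs_exp_sub_one_sub_id_le h4)).2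
      have h6 : (l * (g h - μ)) ^ 2 ≤ 1 / D := by
        rw [← sq_abs]
        calc |l * (g h - μ)| ^ 2 ≤ (1 / √D) ^ 2 := pow_le_pow_left₀ (abs_nonneg _) h3 2
          _ = 1 / D := by rw [div_pow, one_pow, Real.sq_sqrt hDpos.le]
      linarith
    calc ∑ h ∈ H, w h * Real.exp (l * (g h - μ))
        ≤ ∑ h ∈ H, w h * (1 + l * (g h - μ) + 1 / D) := sum_le_sum h2
      _ = (1 - l * μ + 1 / D) * ∑ h ∈ H, w h + l * ∑ h ∈ H, w h * g h := by
        rw [mul_sum, mul_sum, ← sum_add_distrib]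
        apply sum_congr rfl
        intro h _
        ring
      _ = Z * (1 + 1 / D) := by rw [hZ, hμ]; ring
      _ ≤ Z * Real.exp (1 / D) := by
        apply mul_le_mul_of_nonneg_left _ hZ0
        have := Real.add_one_le_exp (1 / (D : ℝ))
        linarith
  have h0 : 0 ≤ ∑ h ∈ H, w h * Real.exp (l * (g h - μ)) :=
    sum_nonneg fun h hh => mul_nonneg (hw h hh) (Real.exp_pos _).le
  have hprodnn : ∀ v ∈ Fintype.piFinset fun _ : Fin D => H, 0 ≤ ∏ i, w (v i) := by
    intro v hv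
    exact prod_nonneg fun i _ => hw _ (Fintype.mem_piFinset.1 hv i)
  calc ∑ v ∈ (Fintype.piFinset fun _ : Fin D => H).filter (fun v => A ≤ ∑ i, (g (v i) - μ)),
        ∏ i, w (v i)
      ≤ ∑ v ∈ (Fintype.piFinset fun _ : Fin D => H).filter (fun v => A ≤ ∑ i, (g (v i) - μ)),
        (∏ i, w (v i)) * Real.exp (l * (∑ i, (g (v i) - μ) - A)) := by
        apply sum_le_sum
        intro v hv
        obtain ⟨hv1, hv2⟩ := mem_filter.1 hv
        have h3 : 1 ≤ Real.exp (l * (∑ i, (g (v i) - μ) - A)) := by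
          rw [Real.one_le_exp_iff]
          exact mul_nonneg hl0.le (by linarith)
        exact le_mul_of_one_le_right (hprodnn v hv1) h3
    _ ≤ ∑ v ∈ (Fintype.piFinset fun _ : Fin D => H),
        (∏ i, w (v i)) * Real.exp (l * (∑ i, (g (v i) - μ) - A)) := by
        apply sum_le_sum_of_subset_of_nonneg (filter_subset _ _)
        intro v hv _
        exact mul_nonneg (hprodnn v hv) (Real.exp_pos _).le
    _ = Real.exp (-(l * A)) * ∑ v ∈ (Fintype.piFinset fun _ : Fin D => H),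
        ∏ i, (w (v i) * Real.exp (l * (g (v i) - μ))) := by
        rw [mul_sum]
        apply sum_congr rfl
        intro v _
        rw [prod_mul_distrib, ← Real.exp_sum, ← mul_sum]
        rw [show l * (∑ i, (g (v i) - μ) - A) = l * ∑ i, (g (v i) - μ) + -(l * A) by ring,
          Real.exp_add]
        ring
    _ = Real.exp (-(l * A)) * (∑ h ∈ H, w h * Real.exp (l * (g h - μ))) ^ D := by
        rw [sum_pow']
    _ ≤ Real.exp (-(l * A)) * (Z * Real.exp (1 / D)) ^ D := by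
        apply mul_le_mul_of_nonneg_left _ (Real.exp_pos _).le
        exact pow_le_pow_left₀ h0 h1 D
    _ = Z ^ D * Real.exp (1 - A / (G * √D)) := by
        rw [mul_pow, ← Real.exp_nat_mul, mul_one_div_cancel hDpos.ne']
        rw [show (1 : ℝ) - A / (G * √D) = -(l * A) + 1 by rw [hl]; ring, Real.exp_add]
        ring

/-- Two-sided version. -/
lemma chernoff_two {ι : Type*} [DecidableEq ι] (H : Finset ι) (w g : ι → ℝ)
    (hw : ∀ h ∈ H, 0 ≤ w h)
    (Z μ G : ℝ) (hZ : ∑ h ∈ H, w h = Z) (hμ : ∑ h ∈ H, w h * g h = Z * μ) (hG : 0 < G)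
    (hg : ∀ h ∈ H, |g h - μ| ≤ G) (D : ℕ) (hD : 1 ≤ D) :
    ∑ v ∈ (Fintype.piFinset fun _ : Fin D => H).filter
      (fun v => 4 * G * √D ≤ |∑ i, g (v i) - D * μ|), ∏ i, w (v i) ≤ Z ^ D * (1 / 8) := by
  have hDpos : (0 : ℝ) < D := by exact_mod_cast hD
  have hsD : 0 < √(D : ℝ) := Real.sqrt_pos.2 hDpos
  have hZ0 : 0 ≤ Z := by rw [← hZ]; exact sum_nonneg hw
  have hsum : ∀ v : Fin D → ι, ∑ i, g (v i) - D * μ = ∑ i, (g (v i) - μ) := by
    intro v
    rw [sum_sub_distrib, sum_const, card_univ, Fintype.card_fin, nsmul_eq_mul]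
  have hsum' : ∀ v : Fin D → ι, -(∑ i, g (v i) - D * μ) = ∑ i, (-g (v i) - -μ) := by
    intro v
    rw [hsum, ← sum_neg_distrib]
    apply sum_congr rfl
    intro i _
    ring
  have h1 := chernoff H w g hw Z μ G hZ hμ hG hg D hD (4 * G * √D)
  have h2 := chernoff H w (fun h => -g h) hw Z (-μ) G hZ (by
    simp only [mul_neg, sum_neg_distrib, hμ]) hG (by
    intro h hh
    have := hg h hh
    rw [abs_sub_comm] at this
    rw [show -g h - -μ = μ - g h by ring]
    exact this) D hD (4 * G * √D)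
  have he : 4 * G * √D / (G * √D) = 4 := by field_simp
  rw [he] at h1 h2
  have hexp : Real.exp (1 - 4) ≤ 1 / 16 := by
    have h3 : Real.exp (1 - 4) = (Real.exp 1 ^ 3)⁻¹ := by
      rw [← Real.exp_nat_mul, ← Real.exp_neg]
      norm_num
    rw [h3]
    have h4 : (2.7 : ℝ) < Real.exp 1 := by
      have := Real.exp_one_gt_d9
      linarith
    have h5 : (16 : ℝ) ≤ Real.exp 1 ^ 3 := by
      calc (16 : ℝ) ≤ 2.7 ^ 3 := by norm_num
        _ ≤ Real.exp 1 ^ 3 := pow_le_pow_left₀ (by norm_num) h4.le 3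
    rw [one_div]
    exact inv_anti₀ (by norm_num) h5
  have hprodnn : ∀ v ∈ Fintype.piFinset fun _ : Fin D => H, 0 ≤ ∏ i, w (v i) := by
    intro v hv
    exact prod_nonneg fun i _ => hw _ (Fintype.mem_piFinset.1 hv i)
  have hsub : (Fintype.piFinset fun _ : Fin D => H).filter
      (fun v => 4 * G * √D ≤ |∑ i, g (v i) - D * μ|) ⊆
      ((Fintype.piFinset fun _ : Fin D => H).filter
        (fun v => 4 * G * √D ≤ ∑ i, (g (v i) - μ))) ∪
      ((Fintype.piFinset fun _ : Fin D => H).filter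
        (fun v => 4 * G * √D ≤ ∑ i, (-g (v i) - -μ))) := by
    intro v hv
    rw [mem_filter] at hv
    rw [mem_union, mem_filter, mem_filter, ← hsum, ← hsum']
    rcases le_abs.1 hv.2 with h | h
    · exact Or.inl ⟨hv.1, h⟩
    · exact Or.inr ⟨hv.1, h⟩
  have h3 := sum_le_sum_of_subset_of_nonneg (f := fun v => ∏ i, w (v i)) hsub (by
    intro v hv _
    rcases mem_union.1 hv with h | h
    · exact hprodnn v (mem_filter.1 h).1
    · exact hprodnn v (mem_filter.1 h).1)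
  have h4 : ∑ v ∈ ((Fintype.piFinset fun _ : Fin D => H).filter
        (fun v => 4 * G * √D ≤ ∑ i, (g (v i) - μ))) ∪
      ((Fintype.piFinset fun _ : Fin D => H).filter
        (fun v => 4 * G * √D ≤ ∑ i, (-g (v i) - -μ))), ∏ i, w (v i) ≤
      ∑ v ∈ ((Fintype.piFinset fun _ : Fin D => H).filter
        (fun v => 4 * G * √D ≤ ∑ i, (g (v i) - μ))), ∏ i, w (v i) +
      ∑ v ∈ ((Fintype.piFinset fun _ : Fin D => H).filter
        (fun v => 4 * G * √D ≤ ∑ i, (-g (v i) - -μ))), ∏ i, w (v i) := by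
    rw [← sum_union_inter]
    have : 0 ≤ ∑ v ∈ ((Fintype.piFinset fun _ : Fin D => H).filter
        (fun v => 4 * G * √D ≤ ∑ i, (g (v i) - μ))) ∩
      ((Fintype.piFinset fun _ : Fin D => H).filter
        (fun v => 4 * G * √D ≤ ∑ i, (-g (v i) - -μ))), ∏ i, w (v i) := by
      apply sum_nonneg
      intro v hv
      exact hprodnn v (mem_filter.1 (mem_inter.1 hv).1).1
    linarith
  have hZD : 0 ≤ Z ^ D := pow_nonneg hZ0 D
  calc _ ≤ _ := h3
    _ ≤ _ := h4
    _ ≤ Z ^ D * Real.exp (1 - 4) + Z ^ D * Real.exp (1 - 4) := add_le_add h1 h2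
    _ ≤ Z ^ D * (1 / 16) + Z ^ D * (1 / 16) := by
      have := mul_le_mul_of_nonneg_left hexp hZD
      linarith
    _ = Z ^ D * (1 / 8) := by ring

end Pool.Agent.Helper32.SixThree
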