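import Mathlib

set_option autoImplicit false

namespace Pool.Agent.Helper32.SixThree

open Finset

/-- A set of triples such that every triangle of its shadow is one of the triples. -/
def RS {α β γ : Type*} (T : Finset (α × β × γ)) : Prop :=
  ∀ x y z x' y' z', (x, y, z') ∈ T → (x, y', z) ∈ T → (x', y, z) ∈ T →
    x' = x ∧ y' = y ∧ z' = z

section RS

variable {α β γ : Type*} {T : Finset (α × β × γ)}

lemma RS.xy (h : RS T) {x : α} {y : β} {z z' : γ} (h1 : (x, y, z) ∈ T) (h2 : (x, y, z') ∈ T) :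
    z = z' := (h x y z x y z' h2 h1 h1).2.2.symm

lemma RS.xz (h : RS T) {x : α} {y y' : β} {z : γ} (h1 : (x, y, z) ∈ T) (h2 : (x, y', z) ∈ T) :
    y = y' := (h x y z x y' z h1 h2 h1).2.1.symm

lemma RS.yz (h : RS T) {x x' : α} {y : β} {z : γ} (h1 : (x, y, z) ∈ T) (h2 : (x', y, z) ∈ T) :
    x = x' := (h x y z x' y z h1 h1 h2).1.symm

end RS

/-- `HasRS m t`: there is such a system on classes of size `m` with at least `t` triples. -/
def HasRS (m t : ℕ) : Prop := ∃ T : Finset (Fin m × Fin m × Fin m), RS T ∧ t ≤ T.card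

lemma HasRS.of_finset {α β γ : Type*} [DecidableEq α] [DecidableEq β] [DecidableEq γ]
    {m : ℕ} (X : Finset α) (Y : Finset β) (Z : Finset γ) (hX : X.card ≤ m) (hY : Y.card ≤ m)
    (hZ : Z.card ≤ m) (T : Finset (α × β × γ)) (hT : RS T)
    (hTX : ∀ t ∈ T, t.1 ∈ X ∧ t.2.1 ∈ Y ∧ t.2.2 ∈ Z) : HasRS m T.card := by
  classical
  obtain ⟨f⟩ : Nonempty (X ↪ Fin m) := by
    apply Function.Embedding.nonempty_of_card_le
    simpa using hX
  obtain ⟨g⟩ : Nonempty (Y ↪ Fin m) := by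
    apply Function.Embedding.nonempty_of_card_le
    simpa using hY
  obtain ⟨k⟩ : Nonempty (Z ↪ Fin m) := by
    apply Function.Embedding.nonempty_of_card_le
    simpa using hZ
  let F : {t // t ∈ T} → Fin m × Fin m × Fin m := fun t =>
    (f ⟨t.1.1, (hTX t.1 t.2).1⟩, g ⟨t.1.2.1, (hTX t.1 t.2).2.1⟩, k ⟨t.1.2.2, (hTX t.1 t.2).2.2⟩)
  have hF : Function.Injective F := by
    rintro ⟨⟨x, y, z⟩, h⟩ ⟨⟨x', y', z'⟩, h'⟩ he
    simp only [F, Prod.mk.injEq, EmbeddingLike.apply_eq_iff_eq, Subtype.mk.injEq] at he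
    obtain ⟨rfl, rfl, rfl⟩ := he
    rfl
  refine ⟨T.attach.image F, ?_, ?_⟩
  · intro x y z x' y' z' h1 h2 h3
    simp only [mem_image, mem_attach, true_and, Subtype.exists, F, Prod.mk.injEq] at h1 h2 h3
    obtain ⟨⟨a1, b1, c1⟩, m1, e1, e2, e3⟩ := h1
    obtain ⟨⟨a2, b2, c2⟩, m2, e4, e5, e6⟩ := h2
    obtain ⟨⟨a3, b3, c3⟩, m3, e7, e8, e9⟩ := h3
    have ha : a1 = a2 := by
      have := e1.trans e4.symm
      simpa using this
    have hb : b1 = b3 := by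
      have := e2.trans e8.symm
      simpa using this
    have hc : c2 = c3 := by
      have := e6.trans e9.symm
      simpa using this
    subst ha hb hc
    obtain ⟨r1, r2, r3⟩ := hT a1 b1 c2 a3 b2 c1 m1 m2 m3
    subst r1 r2 r3
    exact ⟨e7.symm.trans e1, e5.symm.trans e2, e3.symm.trans e6⟩
  · rw [card_image_of_injective _ hF, card_attach]

lemma HasRS.mono {m m' t t' : ℕ} (h : HasRS m t) (hm : m ≤ m') (ht : t' ≤ t) : HasRS m' t' := by
  classical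
  obtain ⟨T, hT, hc⟩ := h
  obtain ⟨T', hT', hc'⟩ := HasRS.of_finset (m := m') (univ : Finset (Fin m)) univ univ
    (by simpa using hm) (by simpa using hm) (by simpa using hm) T hT (by simp)
  exact ⟨T', hT', by omega⟩

lemma HasRS.mul {m m' t t' : ℕ} (h : HasRS m t) (h' : HasRS m' t') :
    HasRS (m * m') (t * t') := by
  classical
  obtain ⟨T, hT, hc⟩ := h
  obtain ⟨T', hT', hc'⟩ := h'
  let F : (Fin m × Fin m × Fin m) × (Fin m' × Fin m' × Fin m') →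
      (Fin m × Fin m') × (Fin m × Fin m') × (Fin m × Fin m') := fun p =>
    ((p.1.1, p.2.1), (p.1.2.1, p.2.2.1), (p.1.2.2, p.2.2.2))
  have hF : Function.Injective F := by
    rintro ⟨⟨a, b, c⟩, ⟨a', b', c'⟩⟩ ⟨⟨d, e, f⟩, ⟨d', e', f'⟩⟩ h
    simp only [F, Prod.mk.injEq] at h
    obtain ⟨⟨rfl, rfl⟩, ⟨rfl, rfl⟩, ⟨rfl, rfl⟩⟩ := h
    rfl
  have hRS : RS ((T ×ˢ T').image F) := by
    rintro ⟨x, x1⟩ ⟨y, y1⟩ ⟨z, z1⟩ ⟨x', x1'⟩ ⟨y', y1'⟩ ⟨z', z1'⟩ h1 h2 h3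
    simp only [mem_image, mem_product, F, Prod.mk.injEq, Prod.exists] at h1 h2 h3
    obtain ⟨a1, a2, a3, a4, a5, a6, ⟨k1, k2⟩, ⟨rfl, rfl⟩, ⟨rfl, rfl⟩, ⟨rfl, rfl⟩⟩ := h1
    obtain ⟨b1, b2, b3, b4, b5, b6, ⟨l1, l2⟩, ⟨rfl, rfl⟩, ⟨rfl, rfl⟩, ⟨rfl, rfl⟩⟩ := h2
    obtain ⟨c1, c2, c3, c4, c5, c6, ⟨n1, n2⟩, ⟨rfl, rfl⟩, ⟨rfl, rfl⟩, ⟨rfl, rfl⟩⟩ := h3
    obtain ⟨r1, r2, r3⟩ := hT _ _ _ _ _ _ k1 l1 n1
    obtain ⟨s1, s2, s3⟩ := hT' _ _ _ _ _ _ k2 l2 n2
    subst r1 r2 r3 s1 s2 s3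
    exact ⟨rfl, rfl, rfl⟩
  obtain ⟨T2, hT2, hc2⟩ := HasRS.of_finset (m := m * m') (univ : Finset (Fin m × Fin m'))
    univ univ (by simp) (by simp) (by simp) _ hRS (by simp)
  refine ⟨T2, hT2, le_trans ?_ hc2⟩
  rw [card_image_of_injective _ hF, card_product]
  exact Nat.mul_le_mul hc hc'

/-- The classical construction from sets without arithmetic progressions of length three. -/
lemma hasRS_behrend (r : ℕ) : HasRS (3 * r) (r * rothNumberNat r) := by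
  classical
  obtain ⟨A, hA, hcard, hfree⟩ := rothNumberNat_spec r
  let F : ℕ × ℕ → ℕ × ℕ × ℕ := fun p => (p.1, p.1 + p.2, p.1 + 2 * p.2)
  have hF : Function.Injective F := by
    rintro ⟨a, b⟩ ⟨c, d⟩ h
    simp only [F, Prod.mk.injEq] at h
    ext <;> simp <;> omega
  have hRS : RS ((range r ×ˢ A).image F) := by
    intro x y z x' y' z' h1 h2 h3
    simp only [mem_image, mem_product, mem_range, F, Prod.mk.injEq, Prod.exists] at h1 h2 h3
    obtain ⟨i1, a1, ⟨-, ha1⟩, e1, e2, e3⟩ := h1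
    obtain ⟨i2, a2, ⟨-, ha2⟩, e4, e5, e6⟩ := h2
    obtain ⟨i3, a3, ⟨-, ha3⟩, e7, e8, e9⟩ := h3
    have h := hfree ha1 ha2 ha3 (by omega)
    omega
  obtain ⟨T2, hT2, hc2⟩ := HasRS.of_finset (m := 3 * r) (range (3 * r))
    (range (3 * r)) (range (3 * r)) (by simp) (by simp) (by simp) _ hRS (by
      intro t ht
      simp only [mem_image, mem_product, mem_range, F, Prod.exists] at ht
      obtain ⟨i, a, ⟨hi, ha⟩, rfl⟩ := ht
      have ha' := mem_range.1 (hA ha)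
      simp only [mem_range]
      omega)
  refine ⟨T2, hT2, le_trans ?_ hc2⟩
  rw [card_image_of_injective _ hF, card_product, card_range, hcard]

end Pool.Agent.Helper32.SixThree
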