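import Pool.Agent.Helper32.SixThree.Gadget
import Pool.Agent.Helper32.SixThree.Chernoff

set_option autoImplicit false

namespace Pool.Agent.Helper32.SixThree

open Finset

/-- the hexagon -/
noncomputable def Hex (L : ℕ) : Finset (ℤ × ℤ) :=
  ((Icc (-(L : ℤ)) L) ×ˢ (Icc (-(L : ℤ)) L)).filter (fun p => |p.1 + p.2| ≤ L)

lemma mem_Hex {L : ℕ} {p : ℤ × ℤ} : p ∈ Hex L ↔ |p.1| ≤ L ∧ |p.2| ≤ L ∧ |p.1 + p.2| ≤ L := by
  simp only [Hex, mem_filter, mem_product, mem_Icc, abs_le]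
  tauto

/-- the Gaussian weight -/
noncomputable def wt (s : ℝ) (p : ℤ × ℤ) : ℝ :=
  Real.exp (-(((p.1 : ℝ) ^ 2 + (p.2 : ℝ) ^ 2 + ((p.1 : ℝ) + p.2) ^ 2) / (3 * s ^ 2)))

lemma wt_pos (s : ℝ) (p : ℤ × ℤ) : 0 < wt s p := Real.exp_pos _

noncomputable def ZZ (s : ℝ) (L : ℕ) : ℝ := ∑ p ∈ Hex L, wt s p

noncomputable def mu (s : ℝ) (L : ℕ) : ℝ := (∑ p ∈ Hex L, wt s p * (p.1 : ℝ) ^ 2) / ZZ s L

lemma ZZ_pos (s : ℝ) (L : ℕ) : 0 < ZZ s L := by
  apply sum_pos (fun p _ => wt_pos s p)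
  exact ⟨(0, 0), by rw [mem_Hex]; simp⟩

lemma sum1 (s : ℝ) (L : ℕ) : ∑ p ∈ Hex L, wt s p * (p.1 : ℝ) ^ 2 = ZZ s L * mu s L := by
  rw [mu, mul_div_cancel₀ _ (ZZ_pos s L).ne']

lemma sum2 (s : ℝ) (L : ℕ) : ∑ p ∈ Hex L, wt s p * (p.2 : ℝ) ^ 2 = ZZ s L * mu s L := by
  rw [← sum1]
  refine sum_bij' (fun p _ => (p.2, p.1)) (fun p _ => (p.2, p.1)) ?_ ?_ ?_ ?_ ?_
  · intro p hp
    rw [mem_Hex] at hp ⊢
    exact ⟨hp.2.1, hp.1, by rw [add_comm]; exact hp.2.2⟩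
  · intro p hp
    rw [mem_Hex] at hp ⊢
    exact ⟨hp.2.1, hp.1, by rw [add_comm]; exact hp.2.2⟩
  · intro p _; rfl
  · intro p _; rfl
  · intro p _
    simp only [wt]
    congr 2
    ring

lemma sum3 (s : ℝ) (L : ℕ) :
    ∑ p ∈ Hex L, wt s p * ((p.1 : ℝ) + p.2) ^ 2 = ZZ s L * mu s L := by
  rw [← sum1]
  refine sum_bij' (fun p _ => (p.1 + p.2, -p.2)) (fun p _ => (p.1 + p.2, -p.2)) ?_ ?_ ?_ ?_ ?_
  · intro p hp
    rw [mem_Hex] at hp ⊢
    refine ⟨hp.2.2, by simpa using hp.2.1, by simpa using hp.1⟩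
  · intro p hp
    rw [mem_Hex] at hp ⊢
    refine ⟨hp.2.2, by simpa using hp.2.1, by simpa using hp.1⟩
  · intro p _; ext <;> simp
  · intro p _; ext <;> simp
  · intro p _
    simp only [wt]
    push_cast
    congr 2
    ring

lemma mu_nonneg (s : ℝ) (L : ℕ) : 0 ≤ mu s L :=
  div_nonneg (sum_nonneg fun p _ => mul_nonneg (wt_pos s p).le (sq_nonneg _)) (ZZ_pos s L).le

lemma sq_le_of_abs_le {a : ℤ} {L : ℕ} (h : |a| ≤ L) : (a : ℝ) ^ 2 ≤ (L : ℝ) ^ 2 := by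
  have h1 : |(a : ℝ)| ≤ L := by exact_mod_cast h
  exact sq_le_sq' (by linarith [(abs_le.1 h1).1]) (abs_le.1 h1).2

lemma mu_le (s : ℝ) (L : ℕ) : mu s L ≤ (L : ℝ) ^ 2 := by
  rw [mu, div_le_iff₀ (ZZ_pos s L), ZZ, mul_sum]
  apply sum_le_sum
  intro p hp
  rw [mul_comm]
  exact mul_le_mul_of_nonneg_right (sq_le_of_abs_le (mem_Hex.1 hp).1) (wt_pos s p).le

theorem count (s : ℝ) (hs : 0 < s) (L : ℕ) (hL : 1 ≤ L) (D : ℕ) (hD : 1 ≤ D) (θ : ℝ)
    (hθ : ∑ a ∈ Icc (-(L : ℤ)) L, Real.exp (-((a : ℝ) ^ 2 / (2 * s ^ 2))) ≤ θ) :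
    ∃ (B : Finset (Fin D → ℤ)) (S : Finset ((Fin D → ℤ) × (Fin D → ℤ))),
      (∀ p ∈ S, p.1 ∈ B ∧ p.2 ∈ B ∧ -p.1 - p.2 ∈ B) ∧
      (∀ p ∈ S, nrm (pt p.1 p.2) ≤ (9 * D * L ^ 2 : ℕ)) ∧
      (B.card : ℝ) ≤ θ ^ D * Real.exp ((D * mu s L + 4 * L ^ 2 * √D) / (2 * s ^ 2)) ∧
      1 / 2 * ZZ s L ^ D * Real.exp ((D * mu s L - 4 * L ^ 2 * √D) / s ^ 2) ≤ S.card := by
  classical
  set μ := mu s L with hμ
  set A : ℝ := 4 * L ^ 2 * √D with hA
  have hL2 : (0 : ℝ) < (L : ℝ) ^ 2 := by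
    have : (0 : ℝ) < L := by exact_mod_cast hL
    positivity
  let P := Fintype.piFinset fun _ : Fin D => Icc (-(L : ℤ)) L
  let Q := Fintype.piFinset fun _ : Fin D => Hex L
  let B : Finset (Fin D → ℤ) := P.filter (fun x => (nrm x : ℝ) ≤ D * μ + A)
  let g1 : ℤ × ℤ → ℝ := fun p => (p.1 : ℝ) ^ 2
  let g2 : ℤ × ℤ → ℝ := fun p => (p.2 : ℝ) ^ 2
  let g3 : ℤ × ℤ → ℝ := fun p => ((p.1 : ℝ) + p.2) ^ 2
  let S0 : Finset (Fin D → ℤ × ℤ) := Q.filter (fun v => |∑ i, g1 (v i) - D * μ| < A ∧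
    |∑ i, g2 (v i) - D * μ| < A ∧ |∑ i, g3 (v i) - D * μ| < A)
  let F : (Fin D → ℤ × ℤ) → (Fin D → ℤ) × (Fin D → ℤ) := fun v =>
    (fun i => (v i).1, fun i => (v i).2)
  have hF : Function.Injective F := by
    intro v v' h
    simp only [F, Prod.mk.injEq] at h
    funext i
    exact Prod.ext (congrFun h.1 i) (congrFun h.2 i)
  have hg1 : ∀ h ∈ Hex L, |g1 h - μ| ≤ (L : ℝ) ^ 2 := by
    intro h hh
    rw [abs_le]
    have h1 := sq_le_of_abs_le (mem_Hex.1 hh).1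
    have h2 : 0 ≤ g1 h := sq_nonneg _
    have h3 := mu_nonneg s L
    have h4 := mu_le s L
    constructor <;> simp only [g1] at * <;> linarith
  have hg2 : ∀ h ∈ Hex L, |g2 h - μ| ≤ (L : ℝ) ^ 2 := by
    intro h hh
    rw [abs_le]
    have h1 := sq_le_of_abs_le (mem_Hex.1 hh).2.1
    have h2 : 0 ≤ g2 h := sq_nonneg _
    have h3 := mu_nonneg s L
    have h4 := mu_le s L
    constructor <;> simp only [g2] at * <;> linarith
  have hg3 : ∀ h ∈ Hex L, |g3 h - μ| ≤ (L : ℝ) ^ 2 := by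
    intro h hh
    rw [abs_le]
    have h1 := sq_le_of_abs_le (mem_Hex.1 hh).2.2
    push_cast at h1
    have h2 : 0 ≤ g3 h := sq_nonneg _
    have h3 := mu_nonneg s L
    have h4 := mu_le s L
    constructor <;> simp only [g3] at * <;> linarith
  have hA' : 4 * (L : ℝ) ^ 2 * √D = A := rfl
  have c1 := chernoff_two (Hex L) (wt s) g1 (fun p _ => (wt_pos s p).le) (ZZ s L) μ _ rfl
    (sum1 s L) hL2 hg1 D hD
  have c2 := chernoff_two (Hex L) (wt s) g2 (fun p _ => (wt_pos s p).le) (ZZ s L) μ _ rfl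
    (sum2 s L) hL2 hg2 D hD
  have c3 := chernoff_two (Hex L) (wt s) g3 (fun p _ => (wt_pos s p).le) (ZZ s L) μ _ rfl
    (sum3 s L) hL2 hg3 D hD
  rw [hA'] at c1 c2 c3
  refine ⟨B, S0.image F, ?_, ?_, ?_, ?_⟩
  · intro p hp
    obtain ⟨v, hv, rfl⟩ := mem_image.1 hp
    obtain ⟨hvQ, hv1, hv2, hv3⟩ := mem_filter.1 hv
    have hvH : ∀ i, v i ∈ Hex L := fun i => Fintype.mem_piFinset.1 hvQ i
    refine ⟨?_, ?_, ?_⟩
    · rw [mem_filter, Fintype.mem_piFinset]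
      refine ⟨fun i => ?_, ?_⟩
      · rw [mem_Icc, ← abs_le]; exact (mem_Hex.1 (hvH i)).1
      · simp only [nrm, F]
        push_cast
        simp only [g1] at hv1
        linarith [(abs_lt.1 hv1).2]
    · rw [mem_filter, Fintype.mem_piFinset]
      refine ⟨fun i => ?_, ?_⟩
      · rw [mem_Icc, ← abs_le]; exact (mem_Hex.1 (hvH i)).2.1
      · simp only [nrm, F]
        push_cast
        simp only [g2] at hv2
        linarith [(abs_lt.1 hv2).2]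
    · rw [mem_filter, Fintype.mem_piFinset]
      refine ⟨fun i => ?_, ?_⟩
      · rw [mem_Icc, ← abs_le]
        have := (mem_Hex.1 (hvH i)).2.2
        simp only [F, Pi.sub_apply, Pi.neg_apply]
        rw [← abs_neg]
        rw [show -(-(v i).1 - (v i).2) = (v i).1 + (v i).2 by ring]
        exact this
      · have h1 : (nrm (-(F v).1 - (F v).2) : ℝ) = ∑ i, g3 (v i) := by
          simp only [nrm, F, g3, Pi.sub_apply, Pi.neg_apply]
          push_cast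
          apply sum_congr rfl
          intro i _
          ring
        rw [h1]
        linarith [(abs_lt.1 hv3).2]
  · intro p hp
    obtain ⟨v, hv, rfl⟩ := mem_image.1 hp
    obtain ⟨hvQ, -⟩ := mem_filter.1 hv
    have hvH : ∀ i, v i ∈ Hex L := fun i => Fintype.mem_piFinset.1 hvQ i
    have h1 : ∀ i ∈ (univ : Finset (Fin D)), (pt (F v).1 (F v).2 i) ^ 2 ≤ 9 * (L : ℤ) ^ 2 := by
      intro i _
      have h2 := (mem_Hex.1 (hvH i)).1
      have h3 := (mem_Hex.1 (hvH i)).2.1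
      rw [abs_le] at h2 h3
      simp only [pt, F]
      nlinarith
    have h2 := sum_le_sum h1
    rw [sum_const, card_univ, Fintype.card_fin, nsmul_eq_mul] at h2
    unfold nrm
    push_cast
    linarith
  · -- upper bound of the ball
    have h1 : (B.card : ℝ) * Real.exp (-((D * μ + A) / (2 * s ^ 2))) ≤
        ∑ x ∈ P, ∏ i, Real.exp (-((x i : ℝ) ^ 2 / (2 * s ^ 2))) := by
      rw [← nsmul_eq_mul, ← sum_const]
      calc ∑ _x ∈ B, Real.exp (-((D * μ + A) / (2 * s ^ 2)))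
          ≤ ∑ x ∈ B, ∏ i, Real.exp (-((x i : ℝ) ^ 2 / (2 * s ^ 2))) := by
            apply sum_le_sum
            intro x hx
            rw [← Real.exp_sum, Real.exp_le_exp, sum_neg_distrib, neg_le_neg_iff, ← sum_div]
            apply div_le_div_of_nonneg_right _ (by positivity)
            have := (mem_filter.1 hx).2
            simp only [nrm] at this
            push_cast at this
            exact this
        _ ≤ ∑ x ∈ P, ∏ i, Real.exp (-((x i : ℝ) ^ 2 / (2 * s ^ 2))) := by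
            apply sum_le_sum_of_subset_of_nonneg (filter_subset _ _)
            intro x _ _
            exact prod_nonneg fun i _ => (Real.exp_pos _).le
    have hpow : (∑ a ∈ Icc (-(L : ℤ)) L, Real.exp (-((a : ℝ) ^ 2 / (2 * s ^ 2)))) ^ D =
        ∑ x ∈ P, ∏ i, Real.exp (-((x i : ℝ) ^ 2 / (2 * s ^ 2))) :=
      sum_pow' (Icc (-(L : ℤ)) L) (fun a : ℤ => Real.exp (-((a : ℝ) ^ 2 / (2 * s ^ 2)))) D
    rw [← hpow] at h1
    have h2 : (∑ a ∈ Icc (-(L : ℤ)) L, Real.exp (-((a : ℝ) ^ 2 / (2 * s ^ 2)))) ^ D ≤ θ ^ D :=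
      pow_le_pow_left₀ (sum_nonneg fun a _ => (Real.exp_pos _).le) hθ D
    have h3 := le_trans h1 h2
    rw [Real.exp_neg, ← div_eq_mul_inv, div_le_iff₀ (Real.exp_pos _)] at h3
    exact h3
  · -- lower bound of the number of pairs
    rw [card_image_of_injective _ hF]
    have hnn : ∀ v : Fin D → ℤ × ℤ, 0 ≤ ∏ i, wt s (v i) :=
      fun v => prod_nonneg fun i _ => (wt_pos s _).le
    have htot : ∑ v ∈ Q, ∏ i, wt s (v i) = ZZ s L ^ D := by
      rw [ZZ, sum_pow']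
    have hsub : Q ⊆ S0 ∪ (Q.filter (fun v => A ≤ |∑ i, g1 (v i) - D * μ|) ∪
        (Q.filter (fun v => A ≤ |∑ i, g2 (v i) - D * μ|) ∪
        Q.filter (fun v => A ≤ |∑ i, g3 (v i) - D * μ|))) := by
      intro v hv
      simp only [mem_union, mem_filter, S0]
      by_cases h1 : A ≤ |∑ i, g1 (v i) - D * μ|
      · exact Or.inr (Or.inl ⟨hv, h1⟩)
      · by_cases h2 : A ≤ |∑ i, g2 (v i) - D * μ|
        · exact Or.inr (Or.inr (Or.inl ⟨hv, h2⟩))
        · by_cases h3 : A ≤ |∑ i, g3 (v i) - D * μ|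
          · exact Or.inr (Or.inr (Or.inr ⟨hv, h3⟩))
          · exact Or.inl ⟨hv, not_le.1 h1, not_le.1 h2, not_le.1 h3⟩
    have hun : ∀ U V : Finset (Fin D → ℤ × ℤ), ∑ v ∈ U ∪ V, ∏ i, wt s (v i) ≤
        ∑ v ∈ U, ∏ i, wt s (v i) + ∑ v ∈ V, ∏ i, wt s (v i) := by
      intro U V
      rw [← sum_union_inter]
      have : 0 ≤ ∑ v ∈ U ∩ V, ∏ i, wt s (v i) := sum_nonneg fun v _ => hnn v
      linarith
    have h1 : ZZ s L ^ D ≤ ∑ v ∈ S0, ∏ i, wt s (v i) + (ZZ s L ^ D * (1 / 8) +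
        (ZZ s L ^ D * (1 / 8) + ZZ s L ^ D * (1 / 8))) := by
      rw [← htot]
      calc ∑ v ∈ Q, ∏ i, wt s (v i) ≤ _ :=
            sum_le_sum_of_subset_of_nonneg hsub (fun v _ _ => hnn v)
        _ ≤ _ := hun _ _
        _ ≤ ∑ v ∈ S0, ∏ i, wt s (v i) + (ZZ s L ^ D * (1 / 8) +
            (ZZ s L ^ D * (1 / 8) + ZZ s L ^ D * (1 / 8))) := by
            apply add_le_add le_rfl
            refine le_trans (hun _ _) (add_le_add c1 ?_)
            exact le_trans (hun _ _) (add_le_add c2 c3)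
        _ = _ := by rw [htot]
    have hZD : 0 < ZZ s L ^ D := pow_pos (ZZ_pos s L) D
    have h2 : ∑ v ∈ S0, ∏ i, wt s (v i) ≤ S0.card * Real.exp (-((D * μ - A) / s ^ 2)) := by
      rw [← nsmul_eq_mul, ← sum_const]
      apply sum_le_sum
      intro v hv
      obtain ⟨-, hv1, hv2, hv3⟩ := mem_filter.1 hv
      simp only [wt]
      rw [← Real.exp_sum, Real.exp_le_exp, sum_neg_distrib, neg_le_neg_iff, ← sum_div,
        sum_add_distrib, sum_add_distrib]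
      rw [div_le_div_iff₀ (by positivity) (by positivity)]
      have e1 := (abs_lt.1 hv1).1
      have e2 := (abs_lt.1 hv2).1
      have e3 := (abs_lt.1 hv3).1
      simp only [g1] at e1
      simp only [g2] at e2
      simp only [g3] at e3
      nlinarith [sq_nonneg s, sq_pos_of_pos hs]
    have h3 : 1 / 2 * ZZ s L ^ D ≤ S0.card * Real.exp (-((D * μ - A) / s ^ 2)) := by linarith
    rw [Real.exp_neg, ← div_eq_mul_inv, le_div_iff₀ (Real.exp_pos _)] at h3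
    exact h3

end Pool.Agent.Helper32.SixThree
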