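import Mathlib

set_option autoImplicit false

namespace Pool.Agent.Helper32.SixThree

/-- `ex r n v e`: the largest number of edges of an `r`-graph on `n` vertices in which every
set of `v` vertices spans fewer than `e` edges. -/
noncomputable def ex (r n v e : ℕ) : ℕ :=
  sSup {m | ∃ E : Finset (Finset (Fin n)), (∀ s ∈ E, s.card = r) ∧
    (∀ S : Finset (Fin n), S.card = v → (E.filter (· ⊆ S)).card < e) ∧ E.card = m}

end Pool.Agent.Helper32.SixThree
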