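import Pool.Agent.Helper32.SixThree.Main

set_option autoImplicit false

namespace Pool.Agent.Helper32.SixThree

open Finset Filter Topology

lemma sqrt3_eq : √3 / 2 = Real.exp (-(Real.log (4 / 3) / 2)) := by
  have h1 : (√3 / 2) ^ 2 = 3 / 4 := by
    rw [div_pow, Real.sq_sqrt (by norm_num)]
    norm_num
  have h2 : Real.exp (-(Real.log (4 / 3) / 2)) ^ 2 = 3 / 4 := by
    rw [← Real.exp_nat_mul]
    rw [show ((2 : ℕ) : ℝ) * -(Real.log (4 / 3) / 2) = -Real.log (4 / 3) by push_cast; ring,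
      Real.exp_neg, Real.exp_log (by norm_num)]
    norm_num
  exact (sq_eq_sq₀ (by positivity) (Real.exp_pos _).le).1 (h1.trans h2.symm)

lemma alg (U W F D Q r P : ℝ) (hF : F ≠ 0) (hD : D ≠ 0) (hQ : Q ≠ 0) :
    U ^ 2 * W / (F * D * Q) * (r * (r * P)) =
      (12 * (U * r)) ^ 2 * (W * P * Q⁻¹ * (1 / (144 * F * D))) := by
  field_simp
  norm_num

theorem final (ε : ℝ) (hε : 0 < ε) : ∀ᶠ n : ℕ in atTop,
    (n : ℝ) ^ 2 * Real.exp (-((2 * √(Real.log (4 / 3)) + ε) * √(Real.log n))) ≤ ex 3 n 6 3 := by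
  set lam : ℝ := Real.log (4 / 3) with hlam
  have hlam0 : 0 < lam := Real.log_pos (by norm_num)
  have hsl : 0 < √lam := Real.sqrt_pos.2 hlam0
  have hsl2 : √lam * √lam = lam := Real.mul_self_sqrt hlam0.le
  set a : ℝ := 2 / √lam with ha
  have ha0 : 0 < a := by positivity
  set η : ℝ := ε * √lam / 8 with hη
  have hη0 : 0 < η := by positivity
  have hηa : η * a = ε / 4 := by
    rw [hη, ha]
    field_simp
    norm_num
  obtain ⟨C, E, F, σ0, hC, hE, hF, hσ0, hG⟩ := main_gadget η hη0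
  have hC0 : 0 < C := by linarith
  have hF0 : 0 < F := by linarith
  set c1 : ℝ := Real.log (12 * C) with hc1
  have hc10 : 0 ≤ c1 := Real.log_nonneg (by linarith)
  have htt : Tendsto (fun n : ℕ => √(Real.log n)) atTop atTop :=
    Real.tendsto_sqrt_atTop.comp (Real.tendsto_log_atTop.comp tendsto_natCast_atTop_atTop)
  have hp := htt.eventually (params a (lam / 2) C (E + 4 * √c1) η ε F (σ0 + 2) ha0 (by positivity)
    hC (by positivity) hη0 hε hF (by have : (0 : ℝ) ≤ σ0 := Nat.cast_nonneg _; linarith) hηa)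
  filter_upwards [hp, eventually_ge_atTop 2] with n hn hn2
  obtain ⟨hD2, hX, hfin⟩ := hn
  set t : ℝ := √(Real.log n) with ht
  have hnR : (2 : ℝ) ≤ n := by exact_mod_cast hn2
  have hlogn : 0 < Real.log n := Real.log_pos (by linarith)
  have ht0 : 0 < t := Real.sqrt_pos.2 hlogn
  have ht2 : t ^ 2 = Real.log n := Real.sq_sqrt hlogn.le
  set D : ℕ := ⌈a * t⌉₊ with hD
  have hDR : (2 : ℝ) ≤ D := by exact_mod_cast hD2
  have hDpos : (0 : ℝ) < D := by linarith
  have hDlo : a * t ≤ D := Nat.le_ceil _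
  have hDhi : (D : ℝ) ≤ a * t + 1 := (Nat.ceil_lt_add_one (by positivity)).le
  set x : ℝ := Real.exp (t ^ 2 / D) / (6 * C) with hx
  have hx2 : (2 : ℝ) ≤ x := by
    have : (0 : ℝ) ≤ σ0 := Nat.cast_nonneg _
    linarith
  have hx0 : 0 < x := by linarith
  set σ : ℕ := ⌊x⌋₊ with hσ
  have hσx : (σ : ℝ) ≤ x := Nat.floor_le hx0.le
  have hσx1 : x < σ + 1 := Nat.lt_floor_add_one x
  have hσx2 : x / 2 ≤ σ := by linarith
  have hσσ : σ0 ≤ σ := by
    apply Nat.le_floor
    linarith
  have hσpos : (0 : ℝ) < σ := by linarith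
  obtain ⟨U, m, t', hRS, hm1, hmU, hUm, hU1, hU2, hUt⟩ := hG σ hσσ D (by omega)
  have hexpD : Real.exp (t ^ 2 / D) ^ D = n := by
    rw [← Real.exp_nat_mul, mul_div_cancel₀ _ hDpos.ne', ht2, Real.exp_log (by linarith)]
  have hU0 : 0 < U := lt_of_lt_of_le (pow_pos hσpos D) hU1
  have hUn : U ≤ n / 36 := by
    have h1 : (C * σ) ^ D ≤ (C * x) ^ D :=
      pow_le_pow_left₀ (by positivity) (mul_le_mul_of_nonneg_left hσx hC0.le) D
    have h2 : C * x = Real.exp (t ^ 2 / D) / 6 := by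
      rw [hx]
      field_simp
    rw [h2, div_pow, hexpD] at h1
    have h3 : (36 : ℝ) ≤ 6 ^ D := by
      calc (36 : ℝ) = 6 ^ 2 := by norm_num
        _ ≤ 6 ^ D := pow_le_pow_right₀ (by norm_num) hD2
    have h4 : (n : ℝ) / 6 ^ D ≤ n / 36 :=
      div_le_div_of_nonneg_left (by positivity) (by norm_num) h3
    linarith
  have hm1R : (1 : ℝ) ≤ m := by exact_mod_cast hm1
  have hmn : 36 * (m : ℝ) ≤ n := by linarith
  set r : ℕ := n / (9 * m) with hr
  have hr1 : 9 * m * r ≤ n := by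
    rw [hr, mul_comm]
    exact Nat.div_mul_le_self n (9 * m)
  have hr2 : n < 9 * m * (r + 1) := by
    rw [hr]
    exact Nat.lt_mul_div_succ n (by omega)
  have hr1R : 9 * (m : ℝ) * r ≤ n := by exact_mod_cast hr1
  have hr2R : (n : ℝ) < 9 * m * (r + 1) := by exact_mod_cast hr2
  have hnUr : (n : ℝ) ≤ 12 * (U * r) := by
    have h1 : (n : ℝ) ≤ 12 * (m * r) := by
      have h0 : 9 * (m : ℝ) * (r + 1) = 9 * (m * r) + 9 * m := by ring
      rw [h0] at hr2R
      linarith
    have h2 : (m : ℝ) * r ≤ U * r := mul_le_mul_of_nonneg_right hmU (Nat.cast_nonneg r)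
    linarith
  have hrpos : (0 : ℝ) < r := by
    rcases Nat.eq_zero_or_pos r with h | h
    · rw [h] at hnUr
      simp at hnUr
      linarith
    · exact_mod_cast h
  have hr1' : 1 ≤ r := by exact_mod_cast hrpos
  have hrlog : Real.log r ≤ c1 * D := by
    have h1 : (r : ℝ) * U ≤ n := by
      have h0 : U ≤ 2 * m := by linarith
      have h3 : (r : ℝ) * U ≤ r * (2 * m) := mul_le_mul_of_nonneg_left h0 hrpos.le
      have h4 : 0 ≤ (m : ℝ) * r := by positivity
      have h5 : (r : ℝ) * (2 * m) = 2 * (m * r) := by ring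
      have h6 : 9 * (m : ℝ) * r = 9 * (m * r) := by ring
      rw [h6] at hr1R
      linarith
    have h2 : (r : ℝ) * (x / 2) ^ D ≤ n := by
      refine le_trans (mul_le_mul_of_nonneg_left ?_ hrpos.le) h1
      exact le_trans (pow_le_pow_left₀ (by positivity) hσx2 D) hU1
    have h3 : (x / 2) ^ D = n / (12 * C) ^ D := by
      rw [← hexpD, ← div_pow]
      congr 1
      rw [hx]
      field_simp
      norm_num
    rw [h3, mul_div_assoc', div_le_iff₀ (by positivity)] at h2
    have h4 : (r : ℝ) ≤ (12 * C) ^ D := by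
      have hn0 : (0 : ℝ) < n := by linarith
      have : (n : ℝ) * r ≤ n * (12 * C) ^ D := by linarith
      exact le_of_mul_le_mul_left this hn0
    calc Real.log r ≤ Real.log ((12 * C) ^ D) := Real.log_le_log hrpos h4
      _ = c1 * D := by rw [Real.log_pow, hc1]; ring
  -- the product system
  have hprod := (hRS.mul (hasRS_behrend r)).le_ex (n := n) (by
    have : 3 * (m * (3 * r)) = 9 * m * r := by ring
    omega)
  have hroth : (r : ℝ) * Real.exp (-(4 * √c1 * √D)) ≤ rothNumberNat r := by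
    refine le_trans ?_ (Behrend.roth_lower_bound (N := r))
    apply mul_le_mul_of_nonneg_left _ hrpos.le
    rw [Real.exp_le_exp]
    have h1 : √(Real.log r) ≤ √c1 * √D := by
      rw [← Real.sqrt_mul hc10]
      exact Real.sqrt_le_sqrt hrlog
    linarith
  have hprodR : (t' : ℝ) * (r * rothNumberNat r) ≤ ex 3 n 6 3 := by exact_mod_cast hprod
  refine le_trans ?_ hprodR
  set W : ℝ := (√3 / 2) ^ D * Real.exp (-(η * D)) * Real.exp (-(E * √D)) with hW
  have hW0 : 0 < W := by positivity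
  have h1 : U ^ 2 * W / (F * D * Real.exp (2 * t ^ 2 / D)) ≤ t' := by
    refine le_trans ?_ hUt
    apply div_le_div_of_nonneg_left (by positivity) (by positivity)
    apply mul_le_mul_of_nonneg_left _ (by positivity)
    have h2 : x ≤ Real.exp (t ^ 2 / D) := by
      rw [hx]
      exact div_le_self (Real.exp_pos _).le (by linarith)
    calc (σ : ℝ) ^ 2 ≤ x ^ 2 := pow_le_pow_left₀ hσpos.le hσx 2
      _ ≤ Real.exp (t ^ 2 / D) ^ 2 := pow_le_pow_left₀ hx0.le h2 2
      _ = Real.exp (2 * t ^ 2 / D) := by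
        rw [← Real.exp_nat_mul]
        congr 1
        push_cast
        ring
  have h2 : (r : ℝ) * (r * Real.exp (-(4 * √c1 * √D))) ≤ r * rothNumberNat r :=
    mul_le_mul_of_nonneg_left hroth hrpos.le
  have h3 : U ^ 2 * W / (F * D * Real.exp (2 * t ^ 2 / D)) *
      ((r : ℝ) * (r * Real.exp (-(4 * √c1 * √D)))) ≤ t' * (r * rothNumberNat r) :=
    mul_le_mul h1 h2 (by positivity) (Nat.cast_nonneg _)
  refine le_trans ?_ h3
  -- the exponents
  have hW2 : W = Real.exp (-(lam / 2 * D + η * D + E * √D)) := by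
    have e1 : √3 / 2 = Real.exp (-(lam / 2)) := sqrt3_eq
    rw [hW, e1, ← Real.exp_nat_mul, ← Real.exp_add, ← Real.exp_add]
    congr 1
    ring
  have hlogF : (1 : ℝ) / (144 * F * D) = Real.exp (-Real.log (144 * F * D)) := by
    rw [Real.exp_neg, Real.exp_log (by positivity), one_div]
  have h4 : (n : ℝ) ^ 2 * Real.exp (-(lam / 2 * D + η * D + E * √D + 4 * √c1 * √D +
      2 * t ^ 2 / D + Real.log (144 * F * D))) ≤
      U ^ 2 * W / (F * D * Real.exp (2 * t ^ 2 / D)) *
      ((r : ℝ) * (r * Real.exp (-(4 * √c1 * √D)))) := by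
    have h5 : Real.exp (-(lam / 2 * D + η * D + E * √D + 4 * √c1 * √D +
      2 * t ^ 2 / D + Real.log (144 * F * D))) =
      W * Real.exp (-(4 * √c1 * √D)) * (Real.exp (2 * t ^ 2 / D))⁻¹ * (1 / (144 * F * D)) := by
      rw [hlogF, hW2, ← Real.exp_neg (2 * t ^ 2 / D), ← Real.exp_add, ← Real.exp_add,
        ← Real.exp_add]
      congr 1
      ring
    rw [h5]
    rw [alg U W F D (Real.exp (2 * t ^ 2 / D)) r (Real.exp (-(4 * √c1 * √D))) hF0.ne' hDpos.ne'
      (Real.exp_pos _).ne']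
    apply mul_le_mul_of_nonneg_right _ (by positivity)
    exact pow_le_pow_left₀ (by linarith) hnUr 2
  refine le_trans ?_ h4
  apply mul_le_mul_of_nonneg_left _ (by positivity)
  rw [Real.exp_le_exp, neg_le_neg_iff]
  have h5 : lam / 2 * D ≤ √lam * t + lam / 2 := by
    have h6 : lam / 2 * D ≤ lam / 2 * (a * t + 1) := mul_le_mul_of_nonneg_left hDhi (by positivity)
    have h7 : lam / 2 * (a * t + 1) = √lam * t + lam / 2 := by
      have h8 : lam * a = 2 * √lam := by
        rw [ha]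
        calc lam * (2 / √lam) = (√lam * √lam) * (2 / √lam) := by rw [hsl2]
          _ = 2 * √lam := by field_simp
      calc lam / 2 * (a * t + 1) = (lam * a) * t / 2 + lam / 2 := by ring
        _ = √lam * t + lam / 2 := by rw [h8]; ring
    linarith
  have h6 : 2 * t ^ 2 / D ≤ √lam * t := by
    rw [div_le_iff₀ hDpos]
    have h7 : √lam * t * (a * t) = 2 * t ^ 2 := by
      rw [ha]
      field_simp
    rw [← h7]
    exact mul_le_mul_of_nonneg_left hDlo (by positivity)
  have h7 : (E + 4 * √c1) * √(D : ℝ) = E * √D + 4 * √c1 * √D := by ring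
  rw [h7] at hfin
  have h8 : (2 * √lam + ε) * t = √lam * t + √lam * t + ε * t := by ring
  rw [h8]
  linarith

end Pool.Agent.Helper32.SixThree
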