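import Pool.Agent.Helper32.SixThree.Core

set_option autoImplicit false

namespace Pool.Agent.Helper32.SixThree

open Finset

/-- squared Euclidean norm -/
def nrm {D : ℕ} (x : Fin D → ℤ) : ℤ := ∑ i, x i ^ 2

lemma nrm_nonneg {D : ℕ} (x : Fin D → ℤ) : 0 ≤ nrm x := sum_nonneg fun _ _ => sq_nonneg _

lemma nrm_eq_zero {D : ℕ} {x : Fin D → ℤ} (h : nrm x = 0) : x = 0 := by
  funext i
  have := (sum_eq_zero_iff_of_nonneg (fun i _ => sq_nonneg (x i))).1 h i (mem_univ i)
  simpa using this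

/-- the vector `x + 2 y` -/
def pt {D : ℕ} (x y : Fin D → ℤ) : Fin D → ℤ := fun i => x i + 2 * y i

/-- The key identity. -/
lemma key_identity {D : ℕ} (x y z : Fin D → ℤ) :
    nrm (pt x y) + nrm (pt x z) - 2 * nrm (y - z) = 2 * nrm (x + y + z) := by
  simp only [nrm, mul_sum, ← sum_add_distrib, ← sum_sub_distrib]
  apply sum_congr rfl
  intro i _
  simp only [pt, Pi.add_apply, Pi.sub_apply]
  ring

lemma gadget {D m M : ℕ} (B : Finset (Fin D → ℤ)) (hB : B.card ≤ m)
    (S : Finset ((Fin D → ℤ) × (Fin D → ℤ)))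
    (hS : ∀ p ∈ S, p.1 ∈ B ∧ p.2 ∈ B ∧ -p.1 - p.2 ∈ B)
    (hM : ∀ p ∈ S, nrm (pt p.1 p.2) ≤ M) :
    ∃ t : ℕ, HasRS m t ∧ (S.card : ℝ) / (M + 1) ≤ t := by
  classical
  obtain ⟨R, -, hR⟩ := exists_le_card_fiber_of_nsmul_le_card_of_maps_to
    (s := S) (t := range (M + 1)) (f := fun p => (nrm (pt p.1 p.2)).toNat)
    (b := (S.card : ℝ) / (M + 1)) (by
      intro p hp
      have h1 := hM p hp
      have h2 := nrm_nonneg (pt p.1 p.2)
      rw [mem_range]
      omega) (by simp) (by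
      rw [card_range, nsmul_eq_mul]
      push_cast
      have : ((M : ℝ) + 1) ≠ 0 := by positivity
      field_simp
      exact le_rfl)
  set S' := S.filter (fun p => (nrm (pt p.1 p.2)).toNat = R) with hS'
  let F : (Fin D → ℤ) × (Fin D → ℤ) → (Fin D → ℤ) × (Fin D → ℤ) × (Fin D → ℤ) := fun p =>
    (p.1, p.2, -p.1 - p.2)
  have hF : Function.Injective F := by
    rintro ⟨a, b⟩ ⟨c, d⟩ h
    simp only [F, Prod.mk.injEq] at h
    rw [h.1, h.2.1]
  have hmem : ∀ x y z, (x, y, z) ∈ S'.image F → z = -x - y ∧ nrm (pt x y) = R := by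
    intro x y z h
    obtain ⟨⟨a, b⟩, hp, he⟩ := mem_image.1 h
    simp only [F, Prod.mk.injEq] at he
    obtain ⟨rfl, rfl, rfl⟩ := he
    refine ⟨rfl, ?_⟩
    have h1 := (mem_filter.1 hp).2
    have h2 := nrm_nonneg (pt a b)
    simp only at h1
    omega
  refine ⟨(S'.image F).card, HasRS.of_finset B B B hB hB hB _ ?_ ?_, ?_⟩
  · intro x y z x' y' z' h1 h2 h3
    obtain ⟨e1, r1⟩ := hmem _ _ _ h1
    obtain ⟨e2, r2⟩ := hmem _ _ _ h2
    obtain ⟨e3, r3⟩ := hmem _ _ _ h3
    have ey' : y' = -x - z := by rw [e2]; abel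
    have ex' : x' = -y - z := by rw [e3]; abel
    have n2 : nrm (pt x z) = R := by
      rw [← r2, ey', nrm, nrm]
      apply sum_congr rfl
      intro i _
      simp only [pt, Pi.sub_apply, Pi.neg_apply]
      ring
    have n3 : nrm (y - z) = R := by
      rw [← r3, ex', nrm, nrm]
      apply sum_congr rfl
      intro i _
      simp only [pt, Pi.sub_apply, Pi.neg_apply]
      ring
    have h := key_identity x y z
    rw [r1, n2, n3] at h
    have h0 : x + y + z = 0 := nrm_eq_zero (by omega)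
    have ez : z = -x - y := by
      have : z = (x + y + z) - x - y := by abel
      rw [this, h0]; abel
    refine ⟨?_, ?_, ?_⟩
    · rw [ex', ez]; abel
    · rw [ey', ez]; abel
    · rw [e1, ez]
  · intro t ht
    obtain ⟨p, hp, rfl⟩ := mem_image.1 ht
    exact hS p (mem_filter.1 hp).1
  · rw [card_image_of_injective _ hF]
    exact hR

end Pool.Agent.Helper32.SixThree
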