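import Pool.Agent.Helper32.SixThree.Count

set_option autoImplicit false

namespace Pool.Agent.Helper32.SixThree

open Finset Filter Topology

lemma antitone_gauss (c : ℝ) (hc : 0 ≤ c) {x y : ℝ} (hx : 0 ≤ x) :
    AntitoneOn (fun t : ℝ => Real.exp (-(c * t ^ 2))) (Set.Icc x y) := by
  intro a ha b _ hab
  simp only
  rw [Real.exp_le_exp, neg_le_neg_iff]
  have : 0 ≤ a := le_trans hx ha.1
  exact mul_le_mul_of_nonneg_left (pow_le_pow_left₀ this hab 2) hc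

lemma cont_gauss (c : ℝ) : Continuous (fun t : ℝ => Real.exp (-(c * t ^ 2))) := by
  fun_prop

lemma lowsum (c : ℝ) (hc : 0 ≤ c) (x0 : ℝ) (hx0 : 0 ≤ x0) (N : ℕ) :
    (∫ x in (0 : ℝ)..N, Real.exp (-(c * x ^ 2))) - x0 ≤
      ∑ i ∈ range N, Real.exp (-(c * (x0 + i) ^ 2)) := by
  have h1 := (antitone_gauss c hc (x := x0) (y := x0 + N) hx0).integral_le_sum
  have hii : ∀ a b : ℝ, IntervalIntegrable (fun t : ℝ => Real.exp (-(c * t ^ 2)))
      MeasureTheory.volume a b := fun a b => (cont_gauss c).intervalIntegrable a b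
  have h2 : (∫ x in (0 : ℝ)..N, Real.exp (-(c * x ^ 2))) ≤
      ∫ x in (0 : ℝ)..(x0 + N), Real.exp (-(c * x ^ 2)) := by
    rw [← intervalIntegral.integral_add_adjacent_intervals (hii 0 N) (hii N (x0 + N))]
    have : 0 ≤ ∫ x in (N : ℝ)..(x0 + N), Real.exp (-(c * x ^ 2)) :=
      intervalIntegral.integral_nonneg (by linarith) (fun u _ => (Real.exp_pos _).le)
    linarith
  have h3 : (∫ x in (0 : ℝ)..(x0 + N), Real.exp (-(c * x ^ 2))) =
      (∫ x in (0 : ℝ)..x0, Real.exp (-(c * x ^ 2))) +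
      ∫ x in x0..(x0 + N), Real.exp (-(c * x ^ 2)) :=
    (intervalIntegral.integral_add_adjacent_intervals (hii _ _) (hii _ _)).symm
  have h4 : (∫ x in (0 : ℝ)..x0, Real.exp (-(c * x ^ 2))) ≤ x0 := by
    have : (∫ x in (0 : ℝ)..x0, Real.exp (-(c * x ^ 2))) ≤ ∫ _x in (0 : ℝ)..x0, (1 : ℝ) := by
      apply intervalIntegral.integral_mono_on hx0 (hii _ _) intervalIntegrable_const
      intro x _
      rw [Real.exp_le_one_iff]
      have : 0 ≤ c * x ^ 2 := mul_nonneg hc (sq_nonneg _)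
      linarith
    simpa using this
  linarith

lemma upsum (c : ℝ) (hc : 0 < c) (N : ℕ) :
    ∑ i ∈ range N, Real.exp (-(c * ((i : ℝ) + 1) ^ 2)) ≤ √(Real.pi / c) / 2 := by
  have h1 := (antitone_gauss c hc.le (x := 0) (y := 0 + N) le_rfl).sum_le_integral
  have h2 : (∫ x in (0 : ℝ)..(0 + N), Real.exp (-(c * x ^ 2))) ≤ √(Real.pi / c) / 2 := by
    rw [← integral_gaussian_Ioi c, intervalIntegral.integral_of_le (by simp)]
    have hint : MeasureTheory.Integrable (fun x : ℝ => Real.exp (-c * x ^ 2)) :=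
      integrable_exp_neg_mul_sq hc
    have heq : (fun x : ℝ => Real.exp (-(c * x ^ 2))) = fun x : ℝ => Real.exp (-c * x ^ 2) := by
      funext x
      rw [neg_mul]
    rw [heq]
    apply MeasureTheory.setIntegral_mono_set hint.integrableOn
    · exact Filter.Eventually.of_forall fun x => (Real.exp_pos _).le
    · exact (Set.Ioc_subset_Ioi_self).eventuallyLE
  refine le_trans (le_of_eq ?_) (le_trans h1 h2)
  apply sum_congr rfl
  intro i _
  push_cast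
  rw [zero_add]

/-- upper bound for the one-dimensional sum -/
lemma theta_le (σ : ℕ) (hσ : 1 ≤ σ) (L : ℕ) :
    ∑ a ∈ Icc (-(L : ℤ)) L, Real.exp (-((a : ℝ) ^ 2 / (2 * (σ : ℝ) ^ 2))) ≤
      1 + σ * √(2 * Real.pi) := by
  have hs : (0 : ℝ) < σ := by exact_mod_cast hσ
  have hev : Function.Even (fun a : ℤ => Real.exp (-((a : ℝ) ^ 2 / (2 * (σ : ℝ) ^ 2)))) := by
    intro a
    simp
  have h0 := sum_Icc_of_even_eq_range hev L
  have h1 := upsum (1 / (2 * (σ : ℝ) ^ 2)) (by positivity) L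
  have h2 : √(Real.pi / (1 / (2 * (σ : ℝ) ^ 2))) = σ * √(2 * Real.pi) := by
    rw [show Real.pi / (1 / (2 * (σ : ℝ) ^ 2)) = (σ : ℝ) ^ 2 * (2 * Real.pi) by field_simp,
      Real.sqrt_mul (by positivity), Real.sqrt_sq hs.le]
  rw [h2] at h1
  rw [h0, sum_range_succ', nsmul_eq_mul]
  have h3 : ∑ i ∈ range L, Real.exp (-((((i + 1 : ℕ) : ℤ) : ℝ) ^ 2 / (2 * (σ : ℝ) ^ 2))) =
      ∑ i ∈ range L, Real.exp (-(1 / (2 * (σ : ℝ) ^ 2) * ((i : ℝ) + 1) ^ 2)) := by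
    apply sum_congr rfl
    intro i _
    congr 2
    push_cast
    ring
  rw [h3]
  simp only [Nat.cast_zero, Int.cast_zero, ne_eq, OfNat.ofNat_ne_zero, not_false_eq_true,
    zero_pow, zero_div, neg_zero, Real.exp_zero, Nat.cast_ofNat]
  linarith

lemma sum_Ico_symm (f : ℤ → ℝ) (N : ℕ) :
    ∑ k ∈ Ico (-(N : ℤ)) N, f k = ∑ i ∈ range N, (f i + f (-(i : ℤ) - 1)) := by
  induction N with
  | zero => simp
  | succ N ih =>
    rw [sum_range_succ, ← ih, Nat.cast_add_one, Ico_succ_succ, sum_union (by simp),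
      sum_insert (by simp; omega), sum_singleton]
    rw [show -((N : ℤ) + 1) = -(N : ℤ) - 1 by ring]
    ring

/-- inner sum -/
lemma inner_sum (c : ℝ) (hc : 0 ≤ c) (N : ℕ) (a : ℤ) (ha : |a| ≤ N) :
    2 * (∫ x in (0 : ℝ)..N, Real.exp (-(4 * c * x ^ 2))) - 1 ≤
      ∑ b ∈ (Icc (-(2 * (N : ℤ))) (2 * (N : ℤ))).filter (fun b => |2 * b + a| ≤ 2 * (N : ℤ)),
        Real.exp (-(c * (2 * (b : ℝ) + a) ^ 2)) := by
  classical
  rw [abs_le] at ha
  have h4c : 0 ≤ 4 * c := by linarith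
  rcases Int.even_or_odd' a with ⟨a', rfl | rfl⟩
  · -- even
    have hsub : (Icc (-(N : ℤ)) N).image (fun k => k - a') ⊆
        (Icc (-(2 * (N : ℤ))) (2 * (N : ℤ))).filter (fun b => |2 * b + 2 * a'| ≤ 2 * (N : ℤ)) := by
      intro b hb
      obtain ⟨k, hk, rfl⟩ := mem_image.1 hb
      rw [mem_Icc] at hk
      rw [mem_filter, mem_Icc, abs_le]
      omega
    refine le_trans ?_ (sum_le_sum_of_subset_of_nonneg hsub (fun _ _ _ => (Real.exp_pos _).le))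
    rw [sum_image (fun x _ y _ h => by simpa using h)]
    have hev : Function.Even (fun k : ℤ => Real.exp (-(4 * c * (k : ℝ) ^ 2))) := by
      intro k
      simp
    have h0 := sum_Icc_of_even_eq_range hev N
    have h1 : ∑ k ∈ Icc (-(N : ℤ)) N, Real.exp (-(c * (2 * ((k - a' : ℤ) : ℝ) + (2 * a' : ℤ)) ^ 2)) =
        ∑ k ∈ Icc (-(N : ℤ)) N, Real.exp (-(4 * c * (k : ℝ) ^ 2)) := by
      apply sum_congr rfl
      intro k _
      congr 2
      push_cast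
      ring
    rw [h1, h0, nsmul_eq_mul, sum_range_succ]
    have h2 := lowsum (4 * c) h4c 0 le_rfl N
    have h3 : ∑ i ∈ range N, Real.exp (-(4 * c * (0 + (i : ℝ)) ^ 2)) =
        ∑ i ∈ range N, Real.exp (-(4 * c * (((i : ℕ) : ℤ) : ℝ) ^ 2)) := by
      apply sum_congr rfl
      intro i _
      push_cast
      rw [zero_add]
    rw [h3] at h2
    have h4 := (Real.exp_pos (-(4 * c * (((N : ℕ) : ℤ) : ℝ) ^ 2))).le
    simp only [Nat.cast_ofNat, Int.cast_zero, ne_eq, OfNat.ofNat_ne_zero, not_false_eq_true,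
      zero_pow, mul_zero, neg_zero, Real.exp_zero]
    linarith
  · -- odd
    have hsub : (Ico (-(N : ℤ)) N).image (fun k => k - a') ⊆
        (Icc (-(2 * (N : ℤ))) (2 * (N : ℤ))).filter (fun b => |2 * b + (2 * a' + 1)| ≤ 2 * (N : ℤ)) := by
      intro b hb
      obtain ⟨k, hk, rfl⟩ := mem_image.1 hb
      rw [mem_Ico] at hk
      rw [mem_filter, mem_Icc, abs_le]
      omega
    refine le_trans ?_ (sum_le_sum_of_subset_of_nonneg hsub (fun _ _ _ => (Real.exp_pos _).le))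
    rw [sum_image (fun x _ y _ h => by simpa using h), sum_Ico_symm]
    have h2 := lowsum (4 * c) h4c (1 / 2) (by norm_num) N
    have h3 : ∑ i ∈ range N,
        (Real.exp (-(c * (2 * (((i : ℤ) - a' : ℤ) : ℝ) + (2 * a' + 1 : ℤ)) ^ 2)) +
        Real.exp (-(c * (2 * ((-(i : ℤ) - 1 - a' : ℤ) : ℝ) + (2 * a' + 1 : ℤ)) ^ 2))) =
        2 * ∑ i ∈ range N, Real.exp (-(4 * c * (1 / 2 + (i : ℝ)) ^ 2)) := by
      rw [mul_sum]
      apply sum_congr rfl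
      intro i _
      have e1 : -(c * (2 * (((i : ℤ) - a' : ℤ) : ℝ) + (2 * a' + 1 : ℤ)) ^ 2) =
          -(4 * c * (1 / 2 + (i : ℝ)) ^ 2) := by
        push_cast
        ring
      have e2 : -(c * (2 * ((-(i : ℤ) - 1 - a' : ℤ) : ℝ) + (2 * a' + 1 : ℤ)) ^ 2) =
          -(4 * c * (1 / 2 + (i : ℝ)) ^ 2) := by
        push_cast
        ring
      rw [e1, e2]
      ring
    rw [h3]
    linarith

lemma outer_sum (c : ℝ) (hc : 0 ≤ c) (N : ℕ) :
    2 * (∫ x in (0 : ℝ)..N, Real.exp (-(c * x ^ 2))) - 1 ≤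
      ∑ a ∈ Icc (-(N : ℤ)) N, Real.exp (-(c * (a : ℝ) ^ 2)) := by
  have hev : Function.Even (fun k : ℤ => Real.exp (-(c * (k : ℝ) ^ 2))) := by
    intro k
    simp
  have h0 := sum_Icc_of_even_eq_range hev N
  rw [h0, nsmul_eq_mul, sum_range_succ]
  have h2 := lowsum c hc 0 le_rfl N
  have h3 : ∑ i ∈ range N, Real.exp (-(c * (0 + (i : ℝ)) ^ 2)) =
      ∑ i ∈ range N, Real.exp (-(c * (((i : ℕ) : ℤ) : ℝ) ^ 2)) := by
    apply sum_congr rfl
    intro i _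
    push_cast
    rw [zero_add]
  rw [h3] at h2
  have h4 := (Real.exp_pos (-(c * (((N : ℕ) : ℤ) : ℝ) ^ 2))).le
  simp only [Nat.cast_ofNat, Int.cast_zero, ne_eq, OfNat.ofNat_ne_zero, not_false_eq_true,
    zero_pow, mul_zero, neg_zero, Real.exp_zero]
  linarith

lemma ZZ_ge (s : ℝ) (hs : 0 < s) (N : ℕ)
    (h : 0 ≤ 2 * (∫ x in (0 : ℝ)..N, Real.exp (-(2 / (3 * s ^ 2) * x ^ 2))) - 1) :
    (2 * (∫ x in (0 : ℝ)..N, Real.exp (-(1 / (2 * s ^ 2) * x ^ 2))) - 1) *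
      (2 * (∫ x in (0 : ℝ)..N, Real.exp (-(2 / (3 * s ^ 2) * x ^ 2))) - 1) ≤ ZZ s (2 * N) := by
  classical
  have hsub : ((Icc (-(N : ℤ)) N) ×ˢ (Icc (-(2 * (N : ℤ))) (2 * (N : ℤ)))).filter
      (fun p => |2 * p.2 + p.1| ≤ 2 * (N : ℤ)) ⊆ Hex (2 * N) := by
    intro p hp
    rw [mem_filter, mem_product, mem_Icc, mem_Icc, abs_le] at hp
    rw [mem_Hex, abs_le, abs_le, abs_le]
    push_cast
    omega
  have h1 : ∑ p ∈ ((Icc (-(N : ℤ)) N) ×ˢ (Icc (-(2 * (N : ℤ))) (2 * (N : ℤ)))).filter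
      (fun p => |2 * p.2 + p.1| ≤ 2 * (N : ℤ)), wt s p ≤ ZZ s (2 * N) :=
    sum_le_sum_of_subset_of_nonneg hsub (fun p _ _ => (wt_pos s p).le)
  refine le_trans ?_ h1
  rw [sum_filter, sum_product]
  have h2 : ∀ a ∈ Icc (-(N : ℤ)) N, Real.exp (-(1 / (2 * s ^ 2) * (a : ℝ) ^ 2)) *
      (2 * (∫ x in (0 : ℝ)..N, Real.exp (-(2 / (3 * s ^ 2) * x ^ 2))) - 1) ≤
      ∑ b ∈ Icc (-(2 * (N : ℤ))) (2 * (N : ℤ)), if |2 * b + a| ≤ 2 * (N : ℤ) then wt s (a, b) else 0 := by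
    intro a ha
    rw [← sum_filter]
    have h3 := inner_sum (1 / (6 * s ^ 2)) (by positivity) N a (abs_le.2 (mem_Icc.1 ha))
    rw [show 4 * (1 / (6 * s ^ 2)) = 2 / (3 * s ^ 2) by field_simp; norm_num] at h3
    have h4 := mul_le_mul_of_nonneg_left h3 (Real.exp_pos (-(1 / (2 * s ^ 2) * (a : ℝ) ^ 2))).le
    refine le_trans h4 (le_of_eq ?_)
    rw [mul_sum]
    apply sum_congr rfl
    intro b _
    rw [wt, ← Real.exp_add]
    congr 1
    field_simp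
    ring
  refine le_trans ?_ (sum_le_sum h2)
  rw [← sum_mul]
  exact mul_le_mul_of_nonneg_right (outer_sum _ (by positivity) N) h

lemma integral_scale (c : ℝ) (σ : ℕ) (hσ : 1 ≤ σ) (q : ℕ) :
    (∫ x in (0 : ℝ)..((q * σ : ℕ) : ℝ), Real.exp (-(c / (σ : ℝ) ^ 2 * x ^ 2))) =
      σ * ∫ u in (0 : ℝ)..q, Real.exp (-(c * u ^ 2)) := by
  have hs : (0 : ℝ) < σ := by exact_mod_cast hσ
  have h := intervalIntegral.integral_comp_div (a := (0 : ℝ)) (b := ((q * σ : ℕ) : ℝ))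
    (fun u : ℝ => Real.exp (-(c * u ^ 2))) hs.ne'
  rw [smul_eq_mul, zero_div] at h
  have h2 : ((q * σ : ℕ) : ℝ) / σ = q := by
    push_cast
    field_simp
  rw [h2] at h
  rw [← h]
  apply intervalIntegral.integral_congr
  intro x _
  simp only
  congr 2
  field_simp

lemma tendsto_gauss (c : ℝ) (hc : 0 < c) :
    Tendsto (fun q : ℕ => ∫ u in (0 : ℝ)..q, Real.exp (-(c * u ^ 2))) atTop
      (𝓝 (√(Real.pi / c) / 2)) := by
  rw [← integral_gaussian_Ioi c]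
  have hint : MeasureTheory.Integrable (fun x : ℝ => Real.exp (-c * x ^ 2)) :=
    integrable_exp_neg_mul_sq hc
  have := MeasureTheory.intervalIntegral_tendsto_integral_Ioi (0 : ℝ) hint.integrableOn
    (tendsto_natCast_atTop_atTop (R := ℝ))
  refine this.congr ?_
  intro q
  apply intervalIntegral.integral_congr
  intro x _
  simp only [neg_mul]

theorem gauss (η : ℝ) (hη : 0 < η) : ∃ q : ℕ, 1 ≤ q ∧ ∃ σ0 : ℕ, 1 ≤ σ0 ∧ ∀ σ : ℕ, σ0 ≤ σ →
    √3 / 2 * Real.exp (-η) * (1 + σ * √(2 * Real.pi)) ^ 2 ≤ ZZ σ (2 * (q * σ)) := by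
  have hpi := Real.pi_pos
  have ht : Tendsto (fun q : ℕ => (2 * ∫ u in (0 : ℝ)..q, Real.exp (-(1 / 2 * u ^ 2))) *
      (2 * ∫ u in (0 : ℝ)..q, Real.exp (-(2 / 3 * u ^ 2)))) atTop
      (𝓝 ((2 * (√(Real.pi / (1 / 2)) / 2)) * (2 * (√(Real.pi / (2 / 3)) / 2)))) :=
    ((tendsto_gauss (1 / 2) (by norm_num)).const_mul 2).mul
      ((tendsto_gauss (2 / 3) (by norm_num)).const_mul 2)
  have hval : (2 * (√(Real.pi / (1 / 2)) / 2)) * (2 * (√(Real.pi / (2 / 3)) / 2)) =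
      √3 / 2 * (√(2 * Real.pi)) ^ 2 := by
    rw [Real.sq_sqrt (by positivity)]
    rw [show 2 * (√(Real.pi / (1 / 2)) / 2) * (2 * (√(Real.pi / (2 / 3)) / 2)) =
      √(Real.pi / (1 / 2)) * √(Real.pi / (2 / 3)) by ring, ← Real.sqrt_mul (by positivity),
      show Real.pi / (1 / 2) * (Real.pi / (2 / 3)) = 3 * Real.pi ^ 2 by ring,
      Real.sqrt_mul (by norm_num), Real.sqrt_sq hpi.le]
    ring
  rw [hval] at ht
  have hlt : √3 / 2 * Real.exp (-η) * (√(2 * Real.pi)) ^ 2 < √3 / 2 * (√(2 * Real.pi)) ^ 2 := by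
    have h1 : Real.exp (-η) < 1 := by rw [Real.exp_lt_one_iff]; linarith
    have h2 : 0 < √3 / 2 * (√(2 * Real.pi)) ^ 2 := by positivity
    nlinarith
  obtain ⟨q, hq1, hq2⟩ := (((tendsto_order.1 ht).1 _ hlt).and (eventually_ge_atTop 1)).exists
  refine ⟨q, hq2, ?_⟩
  set I1 := ∫ u in (0 : ℝ)..q, Real.exp (-(1 / 2 * u ^ 2)) with hI1
  set I2 := ∫ u in (0 : ℝ)..q, Real.exp (-(2 / 3 * u ^ 2)) with hI2
  have hI1n : 0 ≤ I1 := intervalIntegral.integral_nonneg (by positivity)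
    (fun u _ => (Real.exp_pos _).le)
  have hI2n : 0 ≤ I2 := intervalIntegral.integral_nonneg (by positivity)
    (fun u _ => (Real.exp_pos _).le)
  have hI2pos : 0 < I2 := by
    rcases hI2n.lt_or_eq with h | h
    · exact h
    · rw [← h] at hq1
      have : 0 ≤ √3 / 2 * Real.exp (-η) * (√(2 * Real.pi)) ^ 2 := by positivity
      linarith
  -- the limit in σ
  have hinv : Tendsto (fun σ : ℕ => (1 : ℝ) / σ) atTop (𝓝 0) := tendsto_one_div_atTop_nhds_zero_nat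
  have hL : Tendsto (fun σ : ℕ => √3 / 2 * Real.exp (-η) * (1 / (σ : ℝ) + √(2 * Real.pi)) ^ 2) atTop
      (𝓝 (√3 / 2 * Real.exp (-η) * (0 + √(2 * Real.pi)) ^ 2)) :=
    ((hinv.add_const _).pow 2).const_mul _
  have hRt : Tendsto (fun σ : ℕ => (2 * I1 - 1 / (σ : ℝ)) * (2 * I2 - 1 / σ)) atTop
      (𝓝 ((2 * I1 - 0) * (2 * I2 - 0))) :=
    (tendsto_const_nhds.sub hinv).mul (tendsto_const_nhds.sub hinv)
  have hlt2 : √3 / 2 * Real.exp (-η) * (0 + √(2 * Real.pi)) ^ 2 < (2 * I1 - 0) * (2 * I2 - 0) := by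
    rw [zero_add, sub_zero, sub_zero]
    exact hq1
  have hev := (hL.eventually_lt hRt hlt2).and
    ((tendsto_order.1 ((tendsto_const_nhds (x := 2 * I2)).sub hinv)).1 0
      (show (0 : ℝ) < 2 * I2 - 0 by linarith))
  obtain ⟨σ1, hσ1⟩ := eventually_atTop.1 hev
  refine ⟨max σ1 1, le_max_right _ _, ?_⟩
  intro σ hσ
  obtain ⟨h1, h2⟩ := hσ1 σ (le_trans (le_max_left _ _) hσ)
  have hσ1' : 1 ≤ σ := le_trans (le_max_right _ _) hσ
  have hs : (0 : ℝ) < σ := by exact_mod_cast hσ1'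
  have e1 := integral_scale (1 / 2) σ hσ1' q
  have e2 := integral_scale (2 / 3) σ hσ1' q
  rw [show (1 : ℝ) / 2 / (σ : ℝ) ^ 2 = 1 / (2 * (σ : ℝ) ^ 2) by field_simp] at e1
  rw [show (2 : ℝ) / 3 / (σ : ℝ) ^ 2 = 2 / (3 * (σ : ℝ) ^ 2) by field_simp] at e2
  have h3 := ZZ_ge (σ : ℝ) hs (q * σ) (by
    rw [e2]
    have : σ * (2 * I2 - 1 / σ) = 2 * (σ * I2) - 1 := by field_simp
    rw [← this]
    exact (mul_pos hs h2).le)
  rw [e1, e2] at h3
  refine le_trans ?_ h3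
  have h4 : (2 * (σ * I1) - 1) * (2 * (σ * I2) - 1) =
      (σ : ℝ) ^ 2 * ((2 * I1 - 1 / (σ : ℝ)) * (2 * I2 - 1 / σ)) := by
    field_simp
  have h5 : √3 / 2 * Real.exp (-η) * (1 + σ * √(2 * Real.pi)) ^ 2 =
      (σ : ℝ) ^ 2 * (√3 / 2 * Real.exp (-η) * (1 / (σ : ℝ) + √(2 * Real.pi)) ^ 2) := by
    field_simp
  rw [h4, h5]
  exact mul_le_mul_of_nonneg_left h1.le (sq_nonneg _)

end Pool.Agent.Helper32.SixThree
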