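import Pool.Agent.Helper32.SixThree.Core
import Pool.Agent.Helper32.SixThree.Defs

set_option autoImplicit false

namespace Pool.Agent.Helper32.SixThree

open Finset

lemma le_ex {r n v e : ℕ} (E : Finset (Finset (Fin n))) (h1 : ∀ s ∈ E, s.card = r)
    (h2 : ∀ S : Finset (Fin n), S.card = v → (E.filter (· ⊆ S)).card < e) :
    E.card ≤ ex r n v e := by
  apply le_csSup
  · refine ⟨Fintype.card (Finset (Fin n)), ?_⟩
    rintro m ⟨E', -, -, rfl⟩
    exact card_le_univ E'
  · exact ⟨E, h1, h2, rfl⟩

/-- Three distinct triples of an `RS` system use at least seven elements. -/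
lemma RS.seven {α : Type*} [DecidableEq α] {T : Finset (α × α × α)} (hT : RS T)
    {x1 y1 z1 x2 y2 z2 x3 y3 z3 : α} (h1 : (x1, y1, z1) ∈ T) (h2 : (x2, y2, z2) ∈ T)
    (h3 : (x3, y3, z3) ∈ T) (h12 : (x1, y1, z1) ≠ (x2, y2, z2)) (h13 : (x1, y1, z1) ≠ (x3, y3, z3))
    (h23 : (x2, y2, z2) ≠ (x3, y3, z3)) :
    7 ≤ ({x1, x2, x3} : Finset α).card + ({y1, y2, y3} : Finset α).card +
      ({z1, z2, z3} : Finset α).card := by
  have key : ∀ {a b c a' b' c' : α}, (a, b, c) ∈ T → (a', b', c') ∈ T → (a, b, c) ≠ (a', b', c') →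
      (a = a' ∧ b ≠ b' ∧ c ≠ c') ∨ (a ≠ a' ∧ b = b' ∧ c ≠ c') ∨ (a ≠ a' ∧ b ≠ b' ∧ c = c') ∨
      (a ≠ a' ∧ b ≠ b' ∧ c ≠ c') := by
    intro a b c a' b' c' h h' hne
    by_cases ha : a = a'
    · subst ha
      refine Or.inl ⟨rfl, ?_, ?_⟩
      · rintro rfl
        have := hT.xy h h'
        subst this
        exact hne rfl
      · rintro rfl
        have := hT.xz h h'
        subst this
        exact hne rfl
    · by_cases hb : b = b'
      · subst hb
        refine Or.inr (Or.inl ⟨ha, rfl, ?_⟩)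
        rintro rfl
        exact ha (hT.yz h h')
      · by_cases hc : c = c'
        · exact Or.inr (Or.inr (Or.inl ⟨ha, hb, hc⟩))
        · exact Or.inr (Or.inr (Or.inr ⟨ha, hb, hc⟩))
  have k12 := key h1 h2 h12
  have k13 := key h1 h3 h13
  have k23 := key h2 h3 h23
  have c3 : ∀ {a b c : α}, a ≠ b → a ≠ c → b ≠ c → ({a, b, c} : Finset α).card = 3 := by
    intro a b c hab hac hbc
    rw [card_insert_of_notMem (by simp [hab, hac]), card_pair hbc]
  have c2 : ∀ {a b c : α}, a ≠ b ∨ a ≠ c ∨ b ≠ c → 2 ≤ ({a, b, c} : Finset α).card := by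
    intro a b c h
    by_contra hcon
    have h1 : ({a, b, c} : Finset α).card ≤ 1 := by omega
    rw [card_le_one] at h1
    have hab := h1 a (by simp) b (by simp)
    have hac := h1 a (by simp) c (by simp)
    subst hab hac
    simp at h
  have c1 : ∀ a b c : α, 1 ≤ ({a, b, c} : Finset α).card := by
    intro a b c
    exact card_pos.2 ⟨a, by simp⟩
  have cc : ∀ a b c : α, 3 ≤ ({a, b, c} : Finset α).card + (if a = b then 1 else 0) +
      (if a = c then 1 else 0) + (if b = c then 1 else 0) := by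
    intro a b c
    have h1 := c1 a b c
    by_cases hab : a = b <;> by_cases hac : a = c <;> by_cases hbc : b = c
    · rw [if_pos hab, if_pos hac, if_pos hbc]; omega
    · exact absurd (hab.symm.trans hac) hbc
    · exact absurd (hab.trans hbc) hac
    · rw [if_pos hab, if_neg hac, if_neg hbc]; have := c2 (a := a) (b := b) (c := c) (Or.inr (Or.inl hac)); omega
    · exact absurd (hac.trans hbc.symm) hab
    · rw [if_neg hab, if_pos hac, if_neg hbc]; have := c2 (c := c) (Or.inl hab); omega
    · rw [if_neg hab, if_neg hac, if_pos hbc]; have := c2 (c := c) (Or.inl hab); omega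
    · rw [if_neg hab, if_neg hac, if_neg hbc, c3 hab hac hbc]
  have X := cc x1 x2 x3
  have Y := cc y1 y2 y3
  have Z := cc z1 z2 z3
  have X1 := c1 x1 x2 x3
  have Y1 := c1 y1 y2 y3
  have Z1 := c1 z1 z2 z3
  generalize ({x1, x2, x3} : Finset α).card = cx at *
  generalize ({y1, y2, y3} : Finset α).card = cy at *
  generalize ({z1, z2, z3} : Finset α).card = cz at *
  rcases k12 with ⟨a1, a2, a3⟩ | ⟨a1, a2, a3⟩ | ⟨a1, a2, a3⟩ | ⟨a1, a2, a3⟩ <;>
  rcases k13 with ⟨b1, b2, b3⟩ | ⟨b1, b2, b3⟩ | ⟨b1, b2, b3⟩ | ⟨b1, b2, b3⟩ <;>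
  rcases k23 with ⟨d1, d2, d3⟩ | ⟨d1, d2, d3⟩ | ⟨d1, d2, d3⟩ | ⟨d1, d2, d3⟩ <;>
  first
  | (first | rw [if_pos a1] at X | rw [if_neg a1] at X
     first | rw [if_pos b1] at X | rw [if_neg b1] at X
     first | rw [if_pos d1] at X | rw [if_neg d1] at X
     first | rw [if_pos a2] at Y | rw [if_neg a2] at Y
     first | rw [if_pos b2] at Y | rw [if_neg b2] at Y
     first | rw [if_pos d2] at Y | rw [if_neg d2] at Y
     first | rw [if_pos a3] at Z | rw [if_neg a3] at Z
     first | rw [if_pos b3] at Z | rw [if_neg b3] at Z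
     first | rw [if_pos d3] at Z | rw [if_neg d3] at Z
     omega)
  | exact absurd (a1.symm.trans b1) d1
  | exact absurd (a2.symm.trans b2) d2
  | exact absurd (a3.symm.trans b3) d3
  | exact absurd (a1.trans d1) b1
  | exact absurd (a2.trans d2) b2
  | exact absurd (a3.trans d3) b3
  | exact absurd (b1.trans d1.symm) a1
  | exact absurd (b2.trans d2.symm) a2
  | exact absurd (b3.trans d3.symm) a3
  | (exfalso; subst_vars; have := hT _ _ _ _ _ _ h1 h2 h3; simp_all)
  | (exfalso; subst_vars; have := hT _ _ _ _ _ _ h1 h3 h2; simp_all)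
  | (exfalso; subst_vars; have := hT _ _ _ _ _ _ h2 h1 h3; simp_all)
  | (exfalso; subst_vars; have := hT _ _ _ _ _ _ h2 h3 h1; simp_all)
  | (exfalso; subst_vars; have := hT _ _ _ _ _ _ h3 h1 h2; simp_all)
  | (exfalso; subst_vars; have := hT _ _ _ _ _ _ h3 h2 h1; simp_all)

/-- From an `RS` system to a `(6,3)`-free hypergraph. -/
theorem HasRS.le_ex {m t n : ℕ} (h : HasRS m t) (hn : 3 * m ≤ n) : t ≤ ex 3 n 6 3 := by
  classical
  obtain ⟨T, hT, hc⟩ := h
  let i : Fin m → Fin n := fun x => ⟨x, by omega⟩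
  let j : Fin m → Fin n := fun x => ⟨m + x, by omega⟩
  let k : Fin m → Fin n := fun x => ⟨2 * m + x, by omega⟩
  have hi : Function.Injective i := fun a b h => by
    simp only [i, Fin.mk.injEq] at h
    exact Fin.ext h
  have hj : Function.Injective j := fun a b h => by
    simp only [j, Fin.mk.injEq] at h
    exact Fin.ext (by omega)
  have hk : Function.Injective k := fun a b h => by
    simp only [k, Fin.mk.injEq] at h
    exact Fin.ext (by omega)
  have hij : ∀ a b, i a ≠ j b := fun a b h => by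
    simp only [i, j, Fin.mk.injEq] at h
    omega
  have hik : ∀ a b, i a ≠ k b := fun a b h => by
    simp only [i, k, Fin.mk.injEq] at h
    omega
  have hjk : ∀ a b, j a ≠ k b := fun a b h => by
    simp only [j, k, Fin.mk.injEq] at h
    omega
  let e : Fin m × Fin m × Fin m → Finset (Fin n) := fun t => {i t.1, j t.2.1, k t.2.2}
  have he : Function.Injective e := by
    rintro ⟨x, y, z⟩ ⟨x', y', z'⟩ h
    have h1 : i x ∈ e (x', y', z') := by rw [← h]; simp [e]
    have h2 : j y ∈ e (x', y', z') := by rw [← h]; simp [e]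
    have h3 : k z ∈ e (x', y', z') := by rw [← h]; simp [e]
    simp only [e, mem_insert, mem_singleton] at h1 h2 h3
    have e1 : x = x' := by
      rcases h1 with h1 | h1 | h1
      · exact hi h1
      · exact absurd h1 (hij _ _)
      · exact absurd h1 (hik _ _)
    have e2 : y = y' := by
      rcases h2 with h1 | h1 | h1
      · exact absurd h1.symm (hij _ _)
      · exact hj h1
      · exact absurd h1 (hjk _ _)
    have e3 : z = z' := by
      rcases h3 with h1 | h1 | h1
      · exact absurd h1.symm (hik _ _)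
      · exact absurd h1.symm (hjk _ _)
      · exact hk h1
    rw [e1, e2, e3]
  refine le_trans hc (le_trans (le_of_eq ?_) (SixThree.le_ex (T.image e) ?_ ?_))
  · rw [card_image_of_injective _ he]
  · intro s hs
    obtain ⟨t, -, rfl⟩ := mem_image.1 hs
    simp only [e]
    rw [card_insert_of_notMem (by simp [hij, hik]), card_pair (hjk _ _)]
  · intro S hS
    by_contra hcon
    push Not at hcon
    obtain ⟨s1, m1, s2, m2, s3, m3, n12, n13, n23⟩ := two_lt_card.1 hcon
    simp only [mem_filter, mem_image, Prod.exists] at m1 m2 m3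
    obtain ⟨⟨x1, y1, z1, t1, rfl⟩, q1⟩ := m1
    obtain ⟨⟨x2, y2, z2, t2, rfl⟩, q2⟩ := m2
    obtain ⟨⟨x3, y3, z3, t3, rfl⟩, q3⟩ := m3
    have h7 := hT.seven t1 t2 t3 (fun h => n12 (by rw [h])) (fun h => n13 (by rw [h]))
      (fun h => n23 (by rw [h]))
    have hsub : (({x1, x2, x3} : Finset (Fin m)).image i ∪ ({y1, y2, y3} : Finset (Fin m)).image j) ∪
        ({z1, z2, z3} : Finset (Fin m)).image k ⊆ S := by
      intro v hv
      simp only [mem_union, mem_image, mem_insert, mem_singleton] at hv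
      rcases hv with (⟨a, ha, rfl⟩ | ⟨a, ha, rfl⟩) | ⟨a, ha, rfl⟩
      · rcases ha with rfl | rfl | rfl
        · exact q1 (by simp [e])
        · exact q2 (by simp [e])
        · exact q3 (by simp [e])
      · rcases ha with rfl | rfl | rfl
        · exact q1 (by simp [e])
        · exact q2 (by simp [e])
        · exact q3 (by simp [e])
      · rcases ha with rfl | rfl | rfl
        · exact q1 (by simp [e])
        · exact q2 (by simp [e])
        · exact q3 (by simp [e])
    have hcard := card_le_card hsub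
    rw [card_union_of_disjoint, card_union_of_disjoint, card_image_of_injective _ hi,
      card_image_of_injective _ hj, card_image_of_injective _ hk, hS] at hcard
    · omega
    · rw [disjoint_left]
      intro v hv hv'
      obtain ⟨a, -, rfl⟩ := mem_image.1 hv
      obtain ⟨b, -, hb⟩ := mem_image.1 hv'
      exact hij _ _ hb.symm
    · rw [disjoint_left]
      intro v hv hv'
      obtain ⟨b, -, hb⟩ := mem_image.1 hv'
      rcases mem_union.1 hv with hv | hv
      · obtain ⟨a, -, rfl⟩ := mem_image.1 hv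
        exact hik _ _ hb.symm
      · obtain ⟨a, -, rfl⟩ := mem_image.1 hv
        exact hjk _ _ hb.symm

end Pool.Agent.Helper32.SixThree
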