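import Pool.Agent.Helper32.SixThree.Gauss
import Pool.Agent.Helper32.SixThree.Hyper

set_option autoImplicit false

namespace Pool.Agent.Helper32.SixThree

open Finset Filter Topology

/-- The gadget with explicit parameters. -/
theorem main_gadget (η : ℝ) (hη : 0 < η) :
    ∃ (C E F : ℝ) (σ0 : ℕ), 1 ≤ C ∧ 0 ≤ E ∧ 1 ≤ F ∧ 1 ≤ σ0 ∧
      ∀ σ : ℕ, σ0 ≤ σ → ∀ D : ℕ, 1 ≤ D → ∃ (U : ℝ) (m t : ℕ), HasRS m t ∧ 1 ≤ m ∧
        (m : ℝ) ≤ U ∧ U ≤ m + 1 ∧ (σ : ℝ) ^ D ≤ U ∧ U ≤ (C * σ) ^ D ∧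
        U ^ 2 * ((√3 / 2) ^ D * Real.exp (-(η * D)) * Real.exp (-(E * √D))) /
          (F * D * (σ : ℝ) ^ 2) ≤ t := by
  obtain ⟨q, hq, σ0, hσ0, h⟩ := gauss η hη
  have hq1 : (1 : ℝ) ≤ q := by exact_mod_cast hq
  have hq2 : (1 : ℝ) ≤ (q : ℝ) ^ 2 := one_le_pow₀ hq1
  refine ⟨4 * Real.exp (10 * q ^ 2), 32 * q ^ 2, 74 * q ^ 2, σ0, ?_, by positivity, by linarith,
    hσ0, ?_⟩
  · have : 1 ≤ Real.exp (10 * (q : ℝ) ^ 2) := Real.one_le_exp (by positivity)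
    linarith
  intro σ hσ D hD
  have hσ1 : 1 ≤ σ := le_trans hσ0 hσ
  have hs : (1 : ℝ) ≤ σ := by exact_mod_cast hσ1
  have hs0 : (0 : ℝ) < σ := by linarith
  have hD1 : (1 : ℝ) ≤ D := by exact_mod_cast hD
  have hsD : √(D : ℝ) ≤ D := by
    rw [Real.sqrt_le_left (by linarith)]
    nlinarith
  have hsD0 : 0 ≤ √(D : ℝ) := Real.sqrt_nonneg _
  set L : ℕ := 2 * (q * σ) with hL
  have hL1 : 1 ≤ L := by
    have : 1 ≤ q * σ := Nat.mul_pos hq hσ1
    omega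
  set θ : ℝ := 1 + σ * √(2 * Real.pi) with hθ
  have hsq : √(2 * Real.pi) ≤ 3 := by
    rw [Real.sqrt_le_left (by norm_num)]
    have := Real.pi_lt_d2
    linarith
  have hsq1 : 1 ≤ √(2 * Real.pi) := by
    rw [Real.one_le_sqrt]
    have := Real.pi_gt_three
    linarith
  have hθ1 : (σ : ℝ) ≤ θ := by
    rw [hθ]
    nlinarith
  have hθ0 : 0 < θ := by linarith
  have hθ2 : θ ≤ 4 * σ := by
    rw [hθ]
    nlinarith
  obtain ⟨B, S, hS, hM, hB, hSc⟩ := count (σ : ℝ) hs0 L hL1 D hD θ (theta_le σ hσ1 L)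
  set μ := mu (σ : ℝ) L with hμ
  have hμ0 : 0 ≤ μ := mu_nonneg _ _
  have hLr : (L : ℝ) ^ 2 = 4 * q ^ 2 * σ ^ 2 := by
    rw [hL]
    push_cast
    ring
  have hμ1 : μ ≤ 4 * q ^ 2 * σ ^ 2 := by
    rw [← hLr]
    exact mu_le _ _
  have hexp1 : (D * μ + 4 * L ^ 2 * √D) / (2 * (σ : ℝ) ^ 2) ≤ D * (10 * q ^ 2) := by
    rw [div_le_iff₀ (by positivity), hLr]
    have h1 : (D : ℝ) * μ ≤ D * (4 * q ^ 2 * σ ^ 2) :=
      mul_le_mul_of_nonneg_left hμ1 (by linarith)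
    have h2 : 4 * (4 * (q : ℝ) ^ 2 * σ ^ 2) * √D ≤ 4 * (4 * (q : ℝ) ^ 2 * σ ^ 2) * D :=
      mul_le_mul_of_nonneg_left hsD (by positivity)
    nlinarith
  set V : ℝ := (D * μ + 4 * L ^ 2 * √D) / (2 * (σ : ℝ) ^ 2) with hV
  have hV0 : 0 ≤ V := by positivity
  set U : ℝ := θ ^ D * Real.exp V with hU
  have hU1 : (σ : ℝ) ^ D ≤ U := by
    calc (σ : ℝ) ^ D ≤ θ ^ D := pow_le_pow_left₀ hs0.le hθ1 D
      _ ≤ θ ^ D * Real.exp V := le_mul_of_one_le_right (by positivity) (Real.one_le_exp hV0)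
  have hU2 : U ≤ (4 * Real.exp (10 * q ^ 2) * σ) ^ D := by
    calc U = θ ^ D * Real.exp V := rfl
      _ ≤ (4 * σ) ^ D * Real.exp (D * (10 * q ^ 2)) := by
        apply mul_le_mul (pow_le_pow_left₀ hθ0.le hθ2 D) (Real.exp_le_exp.2 hexp1)
          (Real.exp_pos _).le (by positivity)
      _ = (4 * Real.exp (10 * q ^ 2) * σ) ^ D := by
        rw [Real.exp_nat_mul, ← mul_pow]
        congr 1
        ring
  have hUone : 1 ≤ U := le_trans (one_le_pow₀ hs) hU1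
  have hBm : B.card ≤ ⌊U⌋₊ := Nat.le_floor hB
  obtain ⟨t, ht, htc⟩ := gadget B hBm S hS (M := 9 * D * L ^ 2) (by
    intro p hp
    exact_mod_cast hM p hp)
  refine ⟨U, ⌊U⌋₊, t, ht, ?_, Nat.floor_le (by linarith), (Nat.lt_floor_add_one U).le, hU1, hU2, ?_⟩
  · exact Nat.le_floor (by simpa using hUone)
  refine le_trans ?_ htc
  have hZ := h σ hσ
  have hZD : (√3 / 2 * Real.exp (-η) * θ ^ 2) ^ D ≤ ZZ σ L ^ D :=
    pow_le_pow_left₀ (by positivity) hZ D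
  have hM1 : ((9 * D * L ^ 2 : ℕ) : ℝ) + 1 ≤ 37 * q ^ 2 * D * σ ^ 2 := by
    push_cast
    rw [hLr]
    have : 1 ≤ (q : ℝ) ^ 2 * D * σ ^ 2 := by
      have h1 : 1 ≤ (q : ℝ) ^ 2 * D := one_le_mul_of_one_le_of_one_le hq2 hD1
      exact one_le_mul_of_one_le_of_one_le h1 (one_le_pow₀ hs)
    nlinarith
  have hU22 : U ^ 2 * ((√3 / 2) ^ D * Real.exp (-(η * D)) * Real.exp (-(32 * q ^ 2 * √D))) =
      (√3 / 2 * Real.exp (-η) * θ ^ 2) ^ D *
        Real.exp ((D * μ - 4 * L ^ 2 * √D) / (σ : ℝ) ^ 2) := by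
    rw [hU, mul_pow, ← pow_mul, mul_comm D 2, pow_mul, mul_pow, mul_pow (√3 / 2)]
    have e1 : Real.exp (-η) ^ D = Real.exp (-(η * D)) := by
      rw [← Real.exp_nat_mul]
      congr 1
      ring
    have e2 : Real.exp V ^ 2 * Real.exp (-(32 * q ^ 2 * √D)) =
        Real.exp ((D * μ - 4 * L ^ 2 * √D) / (σ : ℝ) ^ 2) := by
      rw [← Real.exp_nat_mul, ← Real.exp_add]
      congr 1
      rw [hV, hLr]
      field_simp
      push_cast
      ring
    rw [e1, ← e2]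
    ring
  rw [hU22]
  have hSc2 : 1 / 2 * ((√3 / 2 * Real.exp (-η) * θ ^ 2) ^ D *
        Real.exp ((D * μ - 4 * L ^ 2 * √D) / (σ : ℝ) ^ 2)) ≤ S.card := by
    refine le_trans ?_ hSc
    rw [mul_assoc (1 / 2) (ZZ (σ : ℝ) L ^ D)]
    exact mul_le_mul_of_nonneg_left (mul_le_mul_of_nonneg_right hZD (Real.exp_pos _).le)
      (by norm_num)
  set W : ℝ := (√3 / 2 * Real.exp (-η) * θ ^ 2) ^ D *
        Real.exp ((D * μ - 4 * L ^ 2 * √D) / (σ : ℝ) ^ 2) with hW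
  have hW0 : 0 ≤ W := by positivity
  rw [div_le_div_iff₀ (by positivity) (by positivity)]
  calc W * (((9 * D * L ^ 2 : ℕ) : ℝ) + 1) ≤ W * (37 * q ^ 2 * D * σ ^ 2) :=
        mul_le_mul_of_nonneg_left hM1 hW0
    _ = (1 / 2 * W) * (74 * q ^ 2 * D * σ ^ 2) := by ring
    _ ≤ S.card * (74 * q ^ 2 * D * σ ^ 2) := mul_le_mul_of_nonneg_right hSc2 (by positivity)

/-- numerical choice of the parameters -/
lemma params (a b C E η ε F X : ℝ) (ha : 0 < a) (hb : 0 ≤ b) (hC : 1 ≤ C) (hE : 0 ≤ E)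
    (hη : 0 < η) (hε : 0 < ε) (hF : 1 ≤ F) (hX : 1 ≤ X) (hηa : η * a = ε / 4) :
    ∀ᶠ t : ℝ in atTop, 2 ≤ ⌈a * t⌉₊ ∧ X ≤ Real.exp (t ^ 2 / ⌈a * t⌉₊) / (6 * C) ∧
      b + η * ⌈a * t⌉₊ + E * √(⌈a * t⌉₊ : ℝ) + Real.log (144 * F * ⌈a * t⌉₊) ≤ ε * t := by
  set E2 : ℝ := E * √(2 * a) + 2 * √(144 * F * (2 * a)) with hE2
  have hE20 : 0 ≤ E2 := by positivity
  filter_upwards [eventually_ge_atTop (2 / a), eventually_ge_atTop (2 * a * (6 * C * X)),
    eventually_ge_atTop ((4 * E2 / ε) ^ 2), eventually_ge_atTop (4 * (b + η) / ε),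
    eventually_ge_atTop 1] with t h1 h2 h3 h4 h5
  have ht0 : 0 < t := by linarith
  have hat : 2 ≤ a * t := by
    rw [div_le_iff₀ ha] at h1
    linarith
  set D := ⌈a * t⌉₊ with hD
  have hD1 : a * t ≤ D := Nat.le_ceil _
  have hD2 : (D : ℝ) ≤ a * t + 1 := (Nat.ceil_lt_add_one (by linarith)).le
  have hD3 : (D : ℝ) ≤ 2 * a * t := by linarith
  have hDpos : (0 : ℝ) < D := by linarith
  refine ⟨?_, ?_, ?_⟩
  · have : (2 : ℝ) ≤ D := by linarith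
    exact_mod_cast this
  · rw [le_div_iff₀ (by positivity)]
    have e1 : t / (2 * a) ≤ t ^ 2 / D := by
      rw [div_le_div_iff₀ (by positivity) hDpos]
      nlinarith
    have e2 : X * (6 * C) ≤ t / (2 * a) := by
      rw [le_div_iff₀ (by positivity)]
      nlinarith
    have e3 := Real.add_one_le_exp (t ^ 2 / D)
    linarith
  · have e1 : √(D : ℝ) ≤ √(2 * a) * √t := by
      rw [← Real.sqrt_mul (by positivity)]
      exact Real.sqrt_le_sqrt hD3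
    have e2 : Real.log (144 * F * D) ≤ 2 * (√(144 * F * (2 * a)) * √t) := by
      have h6 : 0 < 144 * F * D := by positivity
      have h7 : Real.log (144 * F * D) = 2 * Real.log (√(144 * F * D)) := by
        rw [Real.log_sqrt h6.le]
        ring
      rw [h7]
      apply mul_le_mul_of_nonneg_left _ (by norm_num)
      have h8 := Real.log_le_sub_one_of_pos (Real.sqrt_pos.2 h6)
      have h9 : √(144 * F * D) ≤ √(144 * F * (2 * a)) * √t := by
        rw [← Real.sqrt_mul (by positivity)]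
        apply Real.sqrt_le_sqrt
        have : 144 * F * (D : ℝ) ≤ 144 * F * (2 * a * t) :=
          mul_le_mul_of_nonneg_left hD3 (by positivity)
        linarith
      linarith
    have e3 : E2 * √t ≤ ε / 4 * t := by
      have h6 : 4 * E2 / ε ≤ √t := Real.le_sqrt_of_sq_le h3
      rw [div_le_iff₀ hε] at h6
      have h7 : √t * √t = t := Real.mul_self_sqrt ht0.le
      have h8 : 0 ≤ √t := Real.sqrt_nonneg t
      nlinarith
    have e4 : b + η ≤ ε / 4 * t := by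
      rw [div_le_iff₀ hε] at h4
      linarith
    have e5 : η * D ≤ ε / 4 * t + η := by
      have : η * (D : ℝ) ≤ η * (a * t + 1) := mul_le_mul_of_nonneg_left hD2 hη.le
      have h6 : η * (a * t + 1) = (η * a) * t + η := by ring
      rw [h6, hηa] at this
      exact this
    have e6 : E * √(D : ℝ) ≤ E * (√(2 * a) * √t) := mul_le_mul_of_nonneg_left e1 hE
    have e7 : E2 * √t = E * (√(2 * a) * √t) + 2 * (√(144 * F * (2 * a)) * √t) := by
      rw [hE2]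
      ring
    nlinarith

end Pool.Agent.Helper32.SixThree
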